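import Mathlib
set_option autoImplicit false

/-!
The number of the points over `q` points for a map of degree `D` from the line to itself is at
least `(q - 2) D + 2`.
-/

namespace Pool.Agent.V5helper62.TS

open Polynomial UniqueFactorizationMonoid EuclideanDomain

variable {F : Type} [Field F]

/-- the equation of the fibre over the point `a` -/
noncomputable def fib (A B : F[X]) (a : Fin 2 → F) : F[X] := C (a 1) * A - C (a 0) * B

theorem fib_coprime {A B : F[X]} (h : IsCoprime A B) {a b : Fin 2 → F}
    (hab : a 0 * b 1 - a 1 * b 0 ≠ 0) : IsCoprime (fib A B a) (fib A B b) := by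
  obtain ⟨u, v, huv⟩ := h
  have hc : C (a 0 * b 1 - a 1 * b 0)⁻¹ * C (a 0 * b 1 - a 1 * b 0) = (1 : F[X]) := by
    rw [← C_mul, inv_mul_cancel₀ hab, C_1]
  refine ⟨C (a 0 * b 1 - a 1 * b 0)⁻¹ * (-(C (b 0) * u) - C (b 1) * v),
    C (a 0 * b 1 - a 1 * b 0)⁻¹ * (C (a 0) * u + C (a 1) * v), ?_⟩
  unfold fib
  have e : C (a 0 * b 1 - a 1 * b 0)⁻¹ * (-(C (b 0) * u) - C (b 1) * v) *
      (C (a 1) * A - C (a 0) * B) + C (a 0 * b 1 - a 1 * b 0)⁻¹ *
      (C (a 0) * u + C (a 1) * v) * (C (b 1) * A - C (b 0) * B) =
      C (a 0 * b 1 - a 1 * b 0)⁻¹ * C (a 0 * b 1 - a 1 * b 0) * (u * A + v * B) := by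
    rw [C_sub, C_mul, C_mul]
    ring
  rw [e, hc, huv, one_mul]

theorem wr_dvd [DecidableEq F] (A B : F[X]) (a : Fin 2 → F) (ha : a ≠ 0) :
    divRadical (fib A B a) ∣ wronskian A B := by
  by_cases h1 : a 1 = 0
  · have h0 : a 0 ≠ 0 := by
      intro h0
      apply ha
      funext i
      fin_cases i
      · exact h0
      · exact h1
    have h2 := divRadical_dvd_wronskian_left (fib A B a) A
    have e : wronskian (fib A B a) A = C (a 0) * wronskian A B := by
      unfold fib wronskian
      rw [h1]
      simp only [C_0, zero_mul, zero_sub, derivative_neg, derivative_mul, derivative_C]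
      ring
    rw [e] at h2
    have h3 : divRadical (fib A B a) ∣ C (a 0)⁻¹ * (C (a 0) * wronskian A B) :=
      h2.mul_left _
    rwa [← mul_assoc, ← C_mul, inv_mul_cancel₀ h0, C_1, one_mul] at h3
  · have h2 := divRadical_dvd_wronskian_left (fib A B a) B
    have e : wronskian (fib A B a) B = C (a 1) * wronskian A B := by
      unfold fib wronskian
      simp only [derivative_sub, derivative_mul, derivative_C]
      ring
    rw [e] at h2
    have h3 : divRadical (fib A B a) ∣ C (a 1)⁻¹ * (C (a 1) * wronskian A B) :=
      h2.mul_left _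
    rwa [← mul_assoc, ← C_mul, inv_mul_cancel₀ h1, C_1, one_mul] at h3

theorem wr_degree {A B : F[X]} (hw : wronskian A B ≠ 0) {D : ℕ}
    (hA : A.natDegree ≤ D) (hB : B.natDegree ≤ D) : (wronskian A B).natDegree + 2 ≤ 2 * D := by
  by_cases h : A.natDegree < D ∨ B.natDegree < D
  · have := natDegree_wronskian_lt_add hw
    omega
  · push Not at h
    have hA' : A.natDegree = D := le_antisymm hA h.1
    have hB' : B.natDegree = D := le_antisymm hB h.2
    have hB0 : B ≠ 0 := by
      rintro rfl
      exact hw (wronskian_zero_right _)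
    have hD : 1 ≤ D := by
      by_contra hD
      have hD0 : D = 0 := by omega
      apply hw
      obtain ⟨a, rfl⟩ := natDegree_eq_zero.1 (hA'.trans hD0)
      obtain ⟨b, rfl⟩ := natDegree_eq_zero.1 (hB'.trans hD0)
      unfold wronskian
      simp
    set c : F := A.leadingCoeff / B.leadingCoeff with hc
    have hlB : B.leadingCoeff ≠ 0 := leadingCoeff_ne_zero.2 hB0
    have e : wronskian (A - C c * B) B = wronskian A B := by
      unfold wronskian
      simp only [derivative_sub, derivative_mul, derivative_C]
      ring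
    have hlt : (A - C c * B).natDegree < D := by
      rw [natDegree_lt_iff_degree_lt (by
        intro h0
        apply hw
        rw [← e, h0]
        exact wronskian_zero_left _)]
      rw [degree_lt_iff_coeff_zero]
      intro m hm
      rw [coeff_sub, coeff_C_mul]
      rcases hm.eq_or_lt with h1 | h1
      · rw [← h1]
        have h2 : A.coeff D = A.leadingCoeff := by rw [leadingCoeff, hA']
        have h3 : B.coeff D = B.leadingCoeff := by rw [leadingCoeff, hB']
        rw [h2, h3, hc, div_mul_cancel₀ _ hlB, sub_self]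
      · rw [coeff_eq_zero_of_natDegree_lt (by omega), coeff_eq_zero_of_natDegree_lt (by omega),
          mul_zero, sub_zero]
    have := natDegree_wronskian_lt_add (a := A - C c * B) (b := B) (by rw [e]; exact hw)
    rw [e] at this
    omega

theorem radical_deg [IsAlgClosed F] [CharZero F] [DecidableEq F] {P : F[X]} (hP : P ≠ 0) :
    (radical P).natDegree ≤ P.roots.toFinset.card := by
  have hdvd : radical P ∣ P := radical_dvd_self
  have hr0 : radical P ≠ 0 := radical_ne_zero
  have hrs : (radical P).Splits := IsAlgClosed.splits _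
  have hsep : (radical P).Separable := PerfectField.separable_iff_squarefree.2 squarefree_radical
  have hnd := nodup_roots hsep
  rw [hrs.natDegree_eq_card_roots, ← Multiset.toFinset_card_of_nodup hnd]
  apply Finset.card_le_card
  intro x hx
  rw [Multiset.mem_toFinset] at hx ⊢
  exact Multiset.mem_of_le (roots.le_of_dvd hP hdvd) hx

/-- **The number of the points in the fibres.** -/
theorem rh [IsAlgClosed F] [CharZero F] [DecidableEq F] {A B : F[X]} (hco : IsCoprime A B) {q : ℕ}
    (a : Fin q → Fin 2 → F) (ha0 : ∀ l, a l ≠ 0)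
    (ha : ∀ i j, i ≠ j → a i 0 * a j 1 - a i 1 * a j 0 ≠ 0) {D : ℕ} (hD : 1 ≤ D)
    (hA : A.natDegree ≤ D) (hB : B.natDegree ≤ D) (hdeg : ∀ l, (fib A B (a l)).natDegree = D) :
    q * D + 2 ≤ (∏ l, fib A B (a l)).roots.toFinset.card + 2 * D := by
  rcases Nat.eq_zero_or_pos q with hq | hq
  · subst hq
    rw [Nat.zero_mul]
    omega
  have hne : ∀ l, fib A B (a l) ≠ 0 := by
    intro l h
    have := hdeg l
    rw [h, natDegree_zero] at this
    omega
  have hw : wronskian A B ≠ 0 := by
    intro h
    rw [hco.wronskian_eq_zero_iff] at h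
    obtain ⟨h1, h2⟩ := h
    have h3 := hdeg ⟨0, hq⟩
    have h4 : (fib A B (a ⟨0, hq⟩)).natDegree = 0 := by
      apply derivative_eq_zero.1
      unfold fib
      simp only [derivative_sub, derivative_mul, derivative_C, h1, h2]
      ring
    omega
  have hcop : Pairwise (Function.onFun IsCoprime fun l => divRadical (fib A B (a l))) := by
    intro i j hij
    exact (fib_coprime hco (ha i j hij)).divRadical
  have hdvd : ∏ l, divRadical (fib A B (a l)) ∣ wronskian A B :=
    Fintype.prod_dvd_of_coprime hcop fun l => wr_dvd A B (a l) (ha0 l)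
  have h1 := natDegree_le_of_dvd hdvd hw
  have h2 := wr_degree hw hA hB
  rw [natDegree_prod _ _ fun l _ => divRadical_ne_zero (hne l)] at h1
  have h3 : ∀ l, (radical (fib A B (a l))).natDegree + (divRadical (fib A B (a l))).natDegree = D := by
    intro l
    rw [← natDegree_mul radical_ne_zero (divRadical_ne_zero (hne l)), radical_mul_divRadical, hdeg]
  have h4 : ∑ l, (radical (fib A B (a l))).natDegree + ∑ l, (divRadical (fib A B (a l))).natDegree =
      q * D := by
    rw [← Finset.sum_add_distrib, Finset.sum_congr rfl fun l _ => h3 l]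
    simp
  have h5 : ∑ l, (radical (fib A B (a l))).natDegree ≤
      (∏ l, fib A B (a l)).roots.toFinset.card := by
    have h6 : (∏ l, fib A B (a l)).roots.toFinset =
        Finset.univ.biUnion fun l => (fib A B (a l)).roots.toFinset := by
      ext x
      rw [Multiset.mem_toFinset, mem_roots (Finset.prod_ne_zero_iff.2 fun l _ => hne l),
        Finset.mem_biUnion, IsRoot.def, eval_prod, Finset.prod_eq_zero_iff]
      refine exists_congr fun l => ?_
      rw [Multiset.mem_toFinset, mem_roots (hne l), IsRoot.def]
    rw [h6, Finset.card_biUnion]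
    · exact Finset.sum_le_sum fun l _ => radical_deg (hne l)
    · intro i _ j _ hij
      show Disjoint _ _
      rw [Finset.disjoint_left]
      intro x hx hy
      rw [Multiset.mem_toFinset, mem_roots (hne _), IsRoot.def] at hx hy
      obtain ⟨u, v, huv⟩ := fib_coprime hco (ha i j hij)
      have := congrArg (eval x) huv
      rw [eval_add, eval_mul, eval_mul, hx, hy] at this
      simp at this
  omega

end Pool.Agent.V5helper62.TS
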