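import Mathlib
import Pool.Agent.V5helper62.TS.RH
set_option autoImplicit false

/-!
Change of the coordinate of the line, and the points of the fibres.
-/

namespace Pool.Agent.V5helper62.TS

open Polynomial

variable {k : Type} [Field k]

/-- the polynomial `y ^ D * P (c + 1 / y)` -/
noncomputable def hat (D : ℕ) (c : k) (P : k[X]) : k[X] := reflect D (taylor c P)

theorem hat_fib (D : ℕ) (c : k) (A B : k[X]) (a : Fin 2 → k) :
    hat D c (fib A B a) = fib (hat D c A) (hat D c B) a := by
  unfold hat fib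
  rw [map_sub, taylor_mul, taylor_mul, taylor_C, taylor_C, reflect_sub, reflect_C_mul,
    reflect_C_mul]

theorem natDegree_hat_le {D : ℕ} (c : k) {P : k[X]} (hP : P.natDegree ≤ D) :
    (hat D c P).natDegree ≤ D := by
  unfold hat
  refine natDegree_reflect_le.trans ?_
  rw [natDegree_taylor]
  exact max_le le_rfl hP

theorem coeff_hat (D : ℕ) (c : k) (P : k[X]) : (hat D c P).coeff D = P.eval c := by
  unfold hat
  rw [coeff_reflect, revAt_le le_rfl, Nat.sub_self, taylor_coeff_zero]

theorem coeff_hat_zero {D : ℕ} (c : k) {P : k[X]} (hP : P.natDegree ≤ D) :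
    (hat D c P).coeff 0 = P.coeff D := by
  unfold hat
  rw [coeff_reflect, revAt_zero]
  rcases hP.eq_or_lt with h | h
  · rw [← h, coeff_taylor_natDegree]
    rfl
  · rw [coeff_eq_zero_of_natDegree_lt h, coeff_eq_zero_of_natDegree_lt]
    rwa [natDegree_taylor]

theorem natDegree_hat {D : ℕ} {c : k} {P : k[X]} (hP : P.natDegree ≤ D) (h : P.eval c ≠ 0) :
    (hat D c P).natDegree = D := by
  refine le_antisymm (natDegree_hat_le c hP) (le_natDegree_of_ne_zero ?_)
  rwa [coeff_hat]

theorem aeval_hat {D : ℕ} (c : k) {P : k[X]} (hP : P.natDegree ≤ D) {L : Type} [Field L]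
    [Algebra k L] {y : L} (hy : y ≠ 0) :
    aeval y (hat D c P) = y ^ D * aeval (y⁻¹ + algebraMap k L c) P := by
  have : Invertible y⁻¹ := invertibleOfNonzero (inv_ne_zero hy)
  have h := eval₂_reflect_mul_pow (algebraMap k L) y⁻¹ D (taylor c P) (by rwa [natDegree_taylor])
  have e1 : ⅟(y⁻¹) = y := by
    rw [invOf_eq_inv, inv_inv]
  rw [e1] at h
  have e2 : aeval (y⁻¹ + algebraMap k L c) P = eval₂ (algebraMap k L) y⁻¹ (taylor c P) := by
    rw [taylor_apply, ← aeval_def, aeval_comp, map_add, aeval_X, aeval_C]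
  rw [e2, ← h, aeval_def]
  have hyD : y ^ D ≠ 0 := pow_ne_zero _ hy
  unfold hat
  rw [inv_pow]
  field_simp

theorem aeval_hat_zero {D : ℕ} (c : k) {P : k[X]} (hP : P.natDegree ≤ D) {L : Type} [Field L]
    [Algebra k L] : aeval (0 : L) (hat D c P) = algebraMap k L (P.coeff D) := by
  rw [← coeff_zero_eq_aeval_zero', coeff_hat_zero c hP]

theorem hat_coprime {D : ℕ} (c : k) {A B : k[X]} (hA : A.natDegree ≤ D) (hB : B.natDegree ≤ D)
    (h : IsCoprime A B)
    (hAB : A.coeff D ≠ 0 ∨ B.coeff D ≠ 0) : IsCoprime (hat D c A) (hat D c B) := by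
  rw [isCoprime_iff_aeval_ne_zero_of_isAlgClosed k (AlgebraicClosure k)]
  intro y
  by_contra hcon
  push Not at hcon
  obtain ⟨h1, h2⟩ := hcon
  by_cases hy : y = 0
  · subst hy
    rw [aeval_hat_zero c hA, FaithfulSMul.algebraMap_eq_zero_iff] at h1
    rw [aeval_hat_zero c hB, FaithfulSMul.algebraMap_eq_zero_iff] at h2
    rcases hAB with h3 | h3
    · exact h3 h1
    · exact h3 h2
  · rw [aeval_hat c hA hy] at h1
    rw [aeval_hat c hB hy] at h2
    have hyD : y ^ D ≠ 0 := pow_ne_zero _ hy
    have h1' := (mul_eq_zero.1 h1).resolve_left hyD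
    have h2' := (mul_eq_zero.1 h2).resolve_left hyD
    obtain ⟨u, v, huv⟩ := h
    have h3 := congrArg (aeval (y⁻¹ + algebraMap k (AlgebraicClosure k) c)) huv
    rw [map_add, map_mul, map_mul, h1', h2', mul_zero, mul_zero, add_zero, map_one] at h3
    exact zero_ne_one h3

/-- the points of the projective line over the algebraic closure which are mapped to one of the
points `a l` by the map `t ↦ (A (t) : B (t))` of degree `D`; `none` is the point at infinity -/
def preimages {q : ℕ} (D : ℕ) (A B : k[X]) (a : Fin q → Fin 2 → k) :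
    Set (Option (AlgebraicClosure k)) :=
  {β | (β = none ∧ ∃ l, (fib A B (a l)).coeff D = 0) ∨
    ∃ z, β = some z ∧ ∃ l, aeval z (fib A B (a l)) = 0}

theorem card_preimages {q : ℕ} {D : ℕ} {A B : k[X]} (hA : A.natDegree ≤ D) (hB : B.natDegree ≤ D)
    (a : Fin q → Fin 2 → k) {c : k} (hc : ∀ l, (fib A B (a l)).eval c ≠ 0) :
    (preimages D A B a).ncard =
      ((∏ l, hat D c (fib A B (a l))).rootSet (AlgebraicClosure k)).ncard := by
  have hfd : ∀ l, (fib A B (a l)).natDegree ≤ D := by
    intro l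
    unfold fib
    refine (natDegree_sub_le _ _).trans (max_le ?_ ?_)
    · exact (natDegree_C_mul_le _ _).trans hA
    · exact (natDegree_C_mul_le _ _).trans hB
  have hne : ∀ l, hat D c (fib A B (a l)) ≠ 0 := by
    intro l h
    apply hc l
    rw [← coeff_hat D, h, coeff_zero]
  have hprod : (∏ l, hat D c (fib A B (a l))) ≠ 0 := Finset.prod_ne_zero_iff.2 fun l _ => hne l
  obtain ⟨φ, hφ⟩ : ∃ φ : Option (AlgebraicClosure k) → AlgebraicClosure k, φ = fun β =>
    match β with
    | none => 0
    | some z => (z - algebraMap k (AlgebraicClosure k) c)⁻¹ := ⟨_, rfl⟩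
  have hφn : φ none = 0 := by rw [hφ]
  have hφs : ∀ z, φ (some z) = (z - algebraMap k (AlgebraicClosure k) c)⁻¹ := fun z => by rw [hφ]
  have hzc : ∀ z, (∃ l, aeval z (fib A B (a l)) = 0) →
      z - algebraMap k (AlgebraicClosure k) c ≠ 0 := by
    rintro z ⟨l, hl⟩ h
    rw [sub_eq_zero] at h
    rw [h, aeval_algebraMap_apply, FaithfulSMul.algebraMap_eq_zero_iff] at hl
    exact hc l hl
  have himg : φ '' (preimages D A B a) =
      (∏ l, hat D c (fib A B (a l))).rootSet (AlgebraicClosure k) := by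
    ext y
    rw [mem_rootSet, map_prod, Finset.prod_eq_zero_iff]
    constructor
    · rintro ⟨β, hβ | ⟨z, rfl, hz⟩, rfl⟩
      · obtain ⟨rfl, l, hl⟩ := hβ
        refine ⟨hprod, l, Finset.mem_univ _, ?_⟩
        rw [hφn, aeval_hat_zero c (hfd l), hl, map_zero]
      · refine ⟨hprod, ?_⟩
        have h1 := hzc z hz
        obtain ⟨l, hl⟩ := hz
        refine ⟨l, Finset.mem_univ _, ?_⟩
        rw [hφs, aeval_hat c (hfd l) (inv_ne_zero h1), inv_inv, sub_add_cancel, hl, mul_zero]
    · rintro ⟨-, l, -, hl⟩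
      by_cases hy : y = 0
      · refine ⟨none, Or.inl ⟨rfl, l, ?_⟩, by rw [hφn, hy]⟩
        rwa [hy, aeval_hat_zero c (hfd l), FaithfulSMul.algebraMap_eq_zero_iff] at hl
      · refine ⟨some (y⁻¹ + algebraMap k (AlgebraicClosure k) c), Or.inr ⟨_, rfl, l, ?_⟩, ?_⟩
        · rw [aeval_hat c (hfd l) hy] at hl
          exact (mul_eq_zero.1 hl).resolve_left (pow_ne_zero _ hy)
        · rw [hφs, add_sub_cancel_right, inv_inv]
  rw [← himg, Set.InjOn.ncard_image]
  rintro β hβ γ hγ h
  rcases hβ with ⟨rfl, -⟩ | ⟨z, rfl, hz⟩ <;> rcases hγ with ⟨rfl, -⟩ | ⟨z', rfl, hz'⟩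
  · rfl
  · rw [hφn, hφs] at h
    exact absurd h.symm (inv_ne_zero (hzc z' hz'))
  · rw [hφn, hφs] at h
    exact absurd h (inv_ne_zero (hzc z hz))
  · rw [hφs, hφs] at h
    have := inv_injective h
    rw [sub_left_inj] at this
    rw [this]

/-- a value at which no equation vanishes -/
theorem exists_value {K : Type} [Field K] [Infinite K] [Algebra K k] {q : ℕ} (P : Fin q → k[X])
    (hP : ∀ l, P l ≠ 0) : ∃ c : K, ∀ l, (P l).eval (algebraMap K k c) ≠ 0 := by
  have hprod : (∏ l, P l) ≠ 0 := Finset.prod_ne_zero_iff.2 fun l _ => hP l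
  have hfin : {c : K | (∏ l, P l).IsRoot (algebraMap K k c)}.Finite :=
    (finite_setOfPred_isRoot hprod).preimage (f := algebraMap K k)
      (algebraMap K k).injective.injOn
  obtain ⟨c, hc⟩ := hfin.exists_notMem
  refine ⟨c, fun l hl => hc ?_⟩
  show (∏ l, P l).IsRoot (algebraMap K k c)
  rw [IsRoot.def, eval_prod]
  exact Finset.prod_eq_zero (Finset.mem_univ l) hl

theorem fib_ne_zero {A B : k[X]} (h : IsCoprime A B) {D : ℕ} (hD1 : 1 ≤ D)
    (hD : A.natDegree = D ∨ B.natDegree = D) {a : Fin 2 → k} (ha : a ≠ 0) : fib A B a ≠ 0 := by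
  intro h0
  obtain ⟨u, v, huv⟩ := h
  unfold fib at h0
  rw [sub_eq_zero] at h0
  by_cases h1 : a 1 = 0
  · have h2 : a 0 ≠ 0 := by
      intro h2
      apply ha
      funext i
      fin_cases i
      · exact h2
      · exact h1
    rw [h1, C_0, zero_mul] at h0
    have hB : B = 0 := by
      rcases mul_eq_zero.1 h0.symm with h3 | h3
      · exact absurd (C_eq_zero.1 h3) h2
      · exact h3
    rw [hB, mul_zero, add_zero] at huv
    have hAu : IsUnit A := isUnit_iff_exists_inv.2 ⟨u, by rw [mul_comm]; exact huv⟩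
    have hA0 := natDegree_eq_zero_of_isUnit hAu
    rcases hD with h4 | h4
    · omega
    · rw [hB, natDegree_zero] at h4
      omega
  · have hA : A = C ((a 1)⁻¹ * a 0) * B := by
      rw [C_mul, mul_assoc, ← h0, ← mul_assoc, ← C_mul, inv_mul_cancel₀ h1, C_1, one_mul]
    rw [hA] at huv
    have hBu : IsUnit B := by
      refine isUnit_iff_exists_inv.2 ⟨u * C ((a 1)⁻¹ * a 0) + v, ?_⟩
      rw [← huv]
      ring
    have hB0 := natDegree_eq_zero_of_isUnit hBu
    rcases hD with h4 | h4
    · have : A.natDegree ≤ B.natDegree := by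
        rw [hA]
        exact natDegree_C_mul_le _ _
      omega
    · omega

/-- **The number of the preimages.** -/
theorem le_card_preimages [CharZero k] {q : ℕ} {D : ℕ} {A B : k[X]} (hA : A.natDegree ≤ D)
    (hB : B.natDegree ≤ D) (hD : A.natDegree = D ∨ B.natDegree = D) (hD1 : 1 ≤ D)
    (hco : IsCoprime A B) (a : Fin q → Fin 2 → k) (ha0 : ∀ l, a l ≠ 0)
    (ha : ∀ i j, i ≠ j → a i 0 * a j 1 - a i 1 * a j 0 ≠ 0) :
    q * D + 2 ≤ (preimages D A B a).ncard + 2 * D := by
  classical
  obtain ⟨c, hc⟩ := exists_value (K := k) (fun l => fib A B (a l))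
    (fun l => fib_ne_zero hco hD1 hD (ha0 l))
  have hc' : ∀ l, (fib A B (a l)).eval c ≠ 0 := hc
  rw [card_preimages hA hB a hc']
  have hfd : ∀ l, (fib A B (a l)).natDegree ≤ D := by
    intro l
    unfold fib
    refine (natDegree_sub_le _ _).trans (max_le ?_ ?_)
    · exact (natDegree_C_mul_le _ _).trans hA
    · exact (natDegree_C_mul_le _ _).trans hB
  have hAB : A.coeff D ≠ 0 ∨ B.coeff D ≠ 0 := by
    rcases hD with h | h
    · left
      rw [← h]
      intro h0
      have : A = 0 := leadingCoeff_eq_zero.1 h0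
      rw [this, natDegree_zero] at h
      omega
    · right
      rw [← h]
      intro h0
      have : B = 0 := leadingCoeff_eq_zero.1 h0
      rw [this, natDegree_zero] at h
      omega
  have hco' := hat_coprime c hA hB hco hAB
  set ι : k →+* AlgebraicClosure k := algebraMap k (AlgebraicClosure k) with hι
  have hmf : ∀ l, (hat D c (fib A B (a l))).map ι =
      fib ((hat D c A).map ι) ((hat D c B).map ι) (fun i => ι (a l i)) := by
    intro l
    rw [hat_fib]
    unfold fib
    rw [Polynomial.map_sub, Polynomial.map_mul, Polynomial.map_mul, map_C, map_C]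
  have h1 := rh (F := AlgebraicClosure k) (A := (hat D c A).map ι) (B := (hat D c B).map ι)
    (hco'.map (mapRingHom ι)) (fun l i => ι (a l i)) (by
      intro l h
      apply ha0 l
      funext i
      have := congrFun h i
      exact (map_eq_zero ι).1 this) (by
      intro i j hij h
      apply ha i j hij
      rw [← map_mul, ← map_mul, ← map_sub, map_eq_zero] at h
      exact h) hD1 (by
      rw [natDegree_map]
      exact natDegree_hat_le c hA) (by
      rw [natDegree_map]
      exact natDegree_hat_le c hB) (by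
      intro l
      rw [← hmf, natDegree_map]
      exact natDegree_hat (hfd l) (hc' l))
  have h2 : (∏ l, fib ((hat D c A).map ι) ((hat D c B).map ι) (fun i => ι (a l i))) =
      (∏ l, hat D c (fib A B (a l))).map ι := by
    rw [Polynomial.map_prod]
    exact Finset.prod_congr rfl fun l _ => (hmf l).symm
  rw [h2] at h1
  have h3 : ((∏ l, hat D c (fib A B (a l))).rootSet (AlgebraicClosure k)).ncard =
      ((∏ l, hat D c (fib A B (a l))).map ι).roots.toFinset.card := by
    rw [rootSet, Set.ncard_coe_finset]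
  rw [h3]
  exact h1

end Pool.Agent.V5helper62.TS
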