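import Mathlib
import Pool.Agent.TH876.Loc
import Pool.Agent.N753.LS.Red
set_option autoImplicit false

/-!
The primes of an extension above given primes.
-/

namespace Pool.Agent.V5helper62.TS

open NumberField IsDedekindDomain Finset Pool.Agent.H691R3 Pool.Agent.TH876.Loc Polynomial
open Pool.Agent.N753.LS (fv_le_one)

variable {k L : Type} [Field k] [NumberField k] [Field L] [NumberField L] [Algebra k L]

theorem logN_nonneg (w : Pr L) : 0 ≤ Real.log (Nv w) :=
  Real.log_nonneg (by linarith [two_le_Nv w])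

theorem sum_union_le (A B : Finset (Pr L)) [DecidableEq (Pr L)] :
    ∑ w ∈ A ∪ B, Real.log (Nv w) ≤ ∑ w ∈ A, Real.log (Nv w) + ∑ w ∈ B, Real.log (Nv w) := by
  have h3 := Finset.sum_union_inter (s₁ := A) (s₂ := B) (f := fun w : Pr L => Real.log (Nv w))
  have h4 : 0 ≤ ∑ w ∈ A ∩ B, Real.log (Nv w) := Finset.sum_nonneg fun w _ => logN_nonneg w
  linarith

/-- the primes above one prime -/
theorem one_over (v : Pr k) : ∃ W : Finset (Pr L),
    (∀ w : Pr L, w.asIdeal.LiesOver v.asIdeal → w ∈ W) ∧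
    ∑ w ∈ W, Real.log (Nv w) ≤ (Module.finrank k L : ℝ) * Real.log (Nv v) := by
  classical
  have hmax : v.asIdeal.IsMaximal := v.isPrime.isMaximal v.ne_bot
  have hP : ∀ P ∈ IsDedekindDomain.primesOverFinset v.asIdeal (𝓞 L),
      P.IsPrime ∧ P.LiesOver v.asIdeal := by
    intro P hP
    exact (IsDedekindDomain.mem_primesOverFinset_iff v.ne_bot (𝓞 L)).1 hP
  have hbot : ∀ P ∈ IsDedekindDomain.primesOverFinset v.asIdeal (𝓞 L), P ≠ ⊥ := by
    intro P hPm
    have := (hP P hPm).2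
    exact Ideal.ne_bot_of_liesOver_of_ne_bot v.ne_bot P
  obtain ⟨W, hW⟩ : ∃ W : Finset (Pr L), W =
      (IsDedekindDomain.primesOverFinset v.asIdeal (𝓞 L)).attach.image
        fun P => ⟨P.1, (hP P.1 P.2).1, hbot P.1 P.2⟩ := ⟨_, rfl⟩
  have hmem : ∀ w : Pr L, w ∈ W ↔ w.asIdeal ∈ IsDedekindDomain.primesOverFinset v.asIdeal (𝓞 L) := by
    intro w
    rw [hW, Finset.mem_image]
    constructor
    · rintro ⟨P, -, rfl⟩
      exact P.2
    · intro h
      exact ⟨⟨w.asIdeal, h⟩, Finset.mem_attach _ _, rfl⟩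
  refine ⟨W, ?_, ?_⟩
  · intro w hw
    rw [hmem]
    exact (IsDedekindDomain.mem_primesOverFinset_iff v.ne_bot (𝓞 L)).2 ⟨w.isPrime, hw⟩
  · have h1 : ∀ w ∈ W, Real.log (Nv w) =
        (v.asIdeal.inertiaDeg' w.asIdeal : ℝ) * Real.log (Nv v) := by
      intro w hw
      have hlies := (hP _ ((hmem w).1 hw)).2
      unfold Nv
      rw [Ideal.absNorm_eq_pow_inertiaDeg'_of_liesOver w.asIdeal v.asIdeal v.isPrime v.ne_bot,
        Nat.cast_pow, Real.log_pow]
    rw [Finset.sum_congr rfl h1, ← Finset.sum_mul]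
    refine mul_le_mul_of_nonneg_right ?_ (logN_nonneg v)
    have h2 := Ideal.sum_ramification_inertia (𝓞 L) k L v.ne_bot (p := v.asIdeal)
    rw [← h2]
    push_cast
    have h3 : ∑ w ∈ W, (v.asIdeal.inertiaDeg' w.asIdeal : ℝ) =
        ∑ P ∈ IsDedekindDomain.primesOverFinset v.asIdeal (𝓞 L), (v.asIdeal.inertiaDeg' P : ℝ) := by
      refine Finset.sum_bij (fun w _ => w.asIdeal) (fun w hw => (hmem w).1 hw)
        (fun w _ w' _ h => HeightOneSpectrum.ext h) ?_ fun w _ => rfl
      intro P hPm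
      exact ⟨⟨P, (hP P hPm).1, hbot P hPm⟩, (hmem _).2 hPm, rfl⟩
    rw [h3]
    refine Finset.sum_le_sum fun P hPm => ?_
    have h4 := (hP P hPm).2
    have h4' := (hP P hPm).1
    have h5 : v.asIdeal.ramificationIdx' P ≠ 0 :=
      Ideal.IsDedekindDomain.ramificationIdx'_ne_zero_of_liesOver P v.ne_bot
    have h6 : (1 : ℝ) ≤ v.asIdeal.ramificationIdx' P := by exact_mod_cast Nat.one_le_iff_ne_zero.2 h5
    have h7 : (0 : ℝ) ≤ v.asIdeal.inertiaDeg' P := Nat.cast_nonneg _
    nlinarith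

/-- **the primes above finitely many primes** -/
theorem sum_over (V : Finset (Pr k)) : ∃ W : Finset (Pr L),
    (∀ v ∈ V, ∀ w : Pr L, w.asIdeal.LiesOver v.asIdeal → w ∈ W) ∧
    ∑ w ∈ W, Real.log (Nv w) ≤ (Module.finrank k L : ℝ) * ∑ v ∈ V, Real.log (Nv v) := by
  classical
  induction V using Finset.induction_on with
  | empty => exact ⟨∅, by simp, by simp⟩
  | insert v V hv ih =>
    obtain ⟨W1, h1, h2⟩ := ih
    obtain ⟨W2, h3, h4⟩ := one_over (L := L) v
    refine ⟨W2 ∪ W1, ?_, ?_⟩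
    · intro v' hv' w hw
      rcases Finset.mem_insert.1 hv' with rfl | h
      · exact Finset.mem_union_left _ (h3 w hw)
      · exact Finset.mem_union_right _ (h1 v' h w hw)
    · rw [Finset.sum_insert hv, mul_add]
      exact (sum_union_le _ _).trans (add_le_add h4 h2)

/-- outside finitely many primes the values of a polynomial are integral -/
theorem exists_bad (P : L[X]) : ∃ Bad : Finset (Pr L), ∀ w ∉ Bad, ∀ y : L,
    w.valuation L y ≤ 1 → w.valuation L (P.eval y) ≤ 1 := by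
  classical
  refine ⟨P.support.biUnion fun i => if h : P.coeff i = 0 then ∅ else (fv_support_finite h).toFinset,
    ?_⟩
  intro w hw y hy
  rw [eval_eq_sum, Polynomial.sum]
  refine Valuation.map_sum_le _ ?_
  intro i hi
  have h0 : P.coeff i ≠ 0 := mem_support_iff.1 hi
  have h1 : w ∉ (fv_support_finite h0).toFinset := by
    intro h
    apply hw
    rw [Finset.mem_biUnion]
    refine ⟨i, hi, ?_⟩
    rw [dif_neg h0]
    exact h
  rw [Set.Finite.mem_toFinset] at h1
  have h2 : fv w (P.coeff i) = 1 := by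
    by_contra h
    exact h1 h
  rw [map_mul, map_pow]
  have h3 : w.valuation L (P.coeff i) ≤ 1 := (fv_le_one w _).1 h2.le
  exact mul_le_one' h3 (pow_le_one₀ zero_le hy)

end Pool.Agent.V5helper62.TS
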