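import Mathlib
import Pool.Agent.N753.SF.ProjMain
import Pool.Agent.V5helper62.TS.Fib
import Pool.Agent.V5helper62.TS.Over
set_option autoImplicit false

/-!
The truncated counting function of the values of rational functions at the points of the line over
a number field outside one exceptional set.
-/

namespace Pool.Agent.V5helper62.TS

open NumberField IsDedekindDomain Finset Pool.Agent.H691R3 Pool.Agent.TH876.Loc
open Polynomial Height
open Pool.Agent.N753.LS (fv_le_one fv_lt_one)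
open Pool.Agent.N753.SF (mob dt mob_height tuple_main val_lt_over val_le_over)
open Pool.Agent.TH876.KR (form localHeight localHeight_nonneg localHeight_pos_iff m2)
open Pool.Agent.Y730.QP (cnt log_Nv_le_localHeight term_nonneg)
open Pool.Agent.Y557.NF (cnt_eq_V exists_V ne_of_form)

variable {K k : Type} [Field K] [NumberField K] [Field k] [NumberField k] [Algebra K k]

/-- the coordinates of the value at `t` -/
noncomputable def val (A B : k[X]) (t : k) : Fin 2 → k := ![A.eval t, B.eval t]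

theorem form_val (A B : k[X]) (a : Fin 2 → k) (t : k) :
    form a (val A B t) = -(fib A B a).eval t := by
  unfold form val fib
  simp only [Matrix.cons_val_zero, Matrix.cons_val_one, eval_sub, eval_mul, eval_C]
  ring

theorem cnt_nonneg (S : Set (Pr k)) {q : ℕ} {a : Fin q → Fin 2 → k} {x : Fin 2 → k}
    (hx : ∀ i, form (a i) x ≠ 0) (hx0 : x ≠ 0) : 0 ≤ cnt S a x := by
  classical
  obtain ⟨V, hV⟩ := exists_V hx hx0
  rw [cnt_eq_V S V hV]
  refine Finset.sum_nonneg fun w _ => ?_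
  by_cases h : w ∉ S
  · rw [if_pos h]
    exact Finset.sum_nonneg fun i _ => term_nonneg w (hx i)
  · rw [if_neg h]

/-- the primes at which the value is close to one of the points -/
theorem near_le_cnt (S : Set (Pr k)) {q : ℕ} {a : Fin q → Fin 2 → k} {x : Fin 2 → k}
    (hx : ∀ i, form (a i) x ≠ 0) (hx0 : x ≠ 0) : ∃ W : Finset (Pr k),
      (∀ w, w ∉ S → (∃ i, 0 < localHeight w (a i) x) → w ∈ W) ∧
      ∑ w ∈ W, Real.log (Nv w) ≤ cnt S a x := by
  classical
  obtain ⟨V, hV⟩ := exists_V hx hx0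
  refine ⟨V.filter fun w => w ∉ S ∧ ∃ i, 0 < localHeight w (a i) x, ?_, ?_⟩
  · rintro w hw ⟨i, hi⟩
    rw [Finset.mem_filter]
    refine ⟨?_, hw, i, hi⟩
    by_contra hcon
    rw [hV w hcon i] at hi
    exact lt_irrefl _ hi
  · rw [cnt_eq_V S V hV, Finset.sum_filter]
    refine Finset.sum_le_sum fun w _ => ?_
    by_cases hw : w ∉ S
    · rw [if_pos hw]
      split_ifs with h
      · obtain ⟨-, i, hi⟩ := h
        refine le_trans ?_ (Finset.single_le_sum (f := fun i => min (localHeight w (a i) x)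
          (Real.log (Nv w))) (fun j _ => term_nonneg w (hx j)) (Finset.mem_univ i))
        exact le_min (log_Nv_le_localHeight w (hx i) hi) le_rfl
      · exact Finset.sum_nonneg fun i _ => term_nonneg w (hx i)
    · rw [if_neg (fun h => hw h.1), if_neg hw]

/-- **The local comparison.** -/
theorem local_pos {D : ℕ} {A B : k[X]} (hA : A.natDegree ≤ D) (hB : B.natDegree ≤ D) (c : k)
    (hco : IsCoprime (hat D c A) (hat D c B)) {q : ℕ} (a : Fin q → Fin 2 → k)
    (ha0 : ∀ l, a l ≠ 0) : ∃ T : Finset (Pr k), ∀ w ∉ T, ∀ y : k, y ≠ 0 →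
      w.valuation k y ≤ 1 → ∀ l, (fib A B (a l)).eval (y⁻¹ + c) ≠ 0 →
      w.valuation k ((hat D c (fib A B (a l))).eval y) < 1 →
      0 < localHeight w (a l) (val A B (y⁻¹ + c)) := by
  classical
  obtain ⟨u, v, huv⟩ := hco
  obtain ⟨B1, hB1⟩ := exists_bad u
  obtain ⟨B2, hB2⟩ := exists_bad v
  have hj : ∀ l, ∃ j, a l j ≠ 0 := by
    intro l
    by_contra hcon
    push Not at hcon
    exact ha0 l (funext hcon)
  choose j hj using hj
  refine ⟨B1 ∪ (B2 ∪ Finset.univ.biUnion fun l => (fv_support_finite (hj l)).toFinset), ?_⟩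
  intro w hw y hy hwy l hl hwl
  rw [Finset.mem_union, Finset.mem_union, not_or, not_or, Finset.mem_biUnion] at hw
  obtain ⟨hw1, hw2, hw3⟩ := hw
  have ha1 : 1 ≤ m2 w (a l) := by
    have h1 : fv w (a l (j l)) = 1 := by
      by_contra h
      apply hw3
      refine ⟨l, Finset.mem_univ _, ?_⟩
      rw [Set.Finite.mem_toFinset]
      exact h
    rw [← h1]
    unfold m2
    generalize j l = i
    fin_cases i
    · exact le_max_left _ _
    · exact le_max_right _ _
  have hev : ∀ {P : k[X]}, P.natDegree ≤ D → (hat D c P).eval y = y ^ D * P.eval (y⁻¹ + c) := by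
    intro P hP
    have := aeval_hat c hP (L := k) hy
    rwa [coe_aeval_eq_eval, coe_aeval_eq_eval] at this
  have hfd : (fib A B (a l)).natDegree ≤ D := by
    unfold fib
    refine (natDegree_sub_le _ _).trans (max_le ?_ ?_)
    · exact (natDegree_C_mul_le _ _).trans hA
    · exact (natDegree_C_mul_le _ _).trans hB
  have hyD : y ^ D ≠ 0 := pow_ne_zero _ hy
  have hyD' : 0 < fv w (y ^ D) := (fv w).pos hyD
  have hmax : 1 ≤ fv w (y ^ D) * m2 w (val A B (y⁻¹ + c)) := by
    have h1 := congrArg (eval y) huv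
    rw [eval_add, eval_mul, eval_mul, eval_one, hev hA, hev hB] at h1
    have h2 : fv w (u.eval y) ≤ 1 := (fv_le_one w _).2 (hB1 w hw1 y hwy)
    have h3 : fv w (v.eval y) ≤ 1 := (fv_le_one w _).2 (hB2 w hw2 y hwy)
    have h4 : fv w 1 ≤ max (fv w (u.eval y * (y ^ D * A.eval (y⁻¹ + c))))
        (fv w (v.eval y * (y ^ D * B.eval (y⁻¹ + c)))) := by
      rw [← h1]
      exact fv_na w _ _
    rw [map_one] at h4
    refine h4.trans (max_le ?_ ?_)
    · rw [map_mul, map_mul]
      have h5 : fv w (A.eval (y⁻¹ + c)) ≤ m2 w (val A B (y⁻¹ + c)) := le_max_left _ _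
      have h6 : 0 ≤ fv w (y ^ D) * fv w (A.eval (y⁻¹ + c)) :=
        mul_nonneg hyD'.le ((fv w).nonneg _)
      calc fv w (u.eval y) * (fv w (y ^ D) * fv w (A.eval (y⁻¹ + c)))
          ≤ 1 * (fv w (y ^ D) * fv w (A.eval (y⁻¹ + c))) := mul_le_mul_of_nonneg_right h2 h6
        _ = fv w (y ^ D) * fv w (A.eval (y⁻¹ + c)) := one_mul _
        _ ≤ _ := mul_le_mul_of_nonneg_left h5 hyD'.le
    · rw [map_mul, map_mul]
      have h5 : fv w (B.eval (y⁻¹ + c)) ≤ m2 w (val A B (y⁻¹ + c)) := le_max_right _ _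
      have h6 : 0 ≤ fv w (y ^ D) * fv w (B.eval (y⁻¹ + c)) :=
        mul_nonneg hyD'.le ((fv w).nonneg _)
      calc fv w (v.eval y) * (fv w (y ^ D) * fv w (B.eval (y⁻¹ + c)))
          ≤ 1 * (fv w (y ^ D) * fv w (B.eval (y⁻¹ + c))) := mul_le_mul_of_nonneg_right h3 h6
        _ = fv w (y ^ D) * fv w (B.eval (y⁻¹ + c)) := one_mul _
        _ ≤ _ := mul_le_mul_of_nonneg_left h5 hyD'.le
  have hform : form (a l) (val A B (y⁻¹ + c)) ≠ 0 := by
    rw [form_val]
    exact neg_ne_zero.2 hl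
  rw [localHeight_pos_iff w hform, form_val]
  have h7 : fv w (-(fib A B (a l)).eval (y⁻¹ + c)) = fv w ((fib A B (a l)).eval (y⁻¹ + c)) :=
    (fv w).map_neg _
  rw [h7]
  have h8 : fv w (y ^ D) * fv w ((fib A B (a l)).eval (y⁻¹ + c)) < 1 := by
    rw [← map_mul, ← hev hfd, fv_lt_one]
    exact hwl
  have h9 : fv w (y ^ D) * fv w ((fib A B (a l)).eval (y⁻¹ + c)) <
      fv w (y ^ D) * m2 w (val A B (y⁻¹ + c)) := lt_of_lt_of_le h8 hmax
  have h10 := lt_of_mul_lt_mul_left h9 hyD'.le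
  refine h10.trans_le ?_
  have h11 : 0 ≤ m2 w (val A B (y⁻¹ + c)) := ((fv w).nonneg _).trans (le_max_left _ _)
  nlinarith

/-- the prime below -/
theorem exists_below {L : Type} [Field L] [NumberField L] [Algebra k L] (w : Pr L) :
    ∃ v : Pr k, w.asIdeal.LiesOver v.asIdeal := by
  have h2 : (w.asIdeal.under (𝓞 k)).IsPrime := inferInstance
  have h3 : w.asIdeal.under (𝓞 k) ≠ ⊥ := by
    intro h
    exact w.ne_bot (Ideal.eq_bot_of_comap_eq_bot (R := 𝓞 k) h)
  exact ⟨⟨w.asIdeal.under (𝓞 k), h2, h3⟩, ⟨rfl⟩⟩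

/-- finitely many primes which serve finitely many roots -/
theorem bad_roots {L : Type} [Field L] [NumberField L] {n : ℕ} (b : Fin n → L) {q : ℕ}
    (P : Fin q → L[X]) : ∃ T : Finset (Pr L), ∀ w ∉ T, ∀ y : L, w.valuation L y ≤ 1 → ∀ j l,
      (P l).IsRoot (b j) → w.valuation L (y - b j) < 1 → w.valuation L ((P l).eval y) < 1 := by
  classical
  have h : ∀ j l, ∃ T : Finset (Pr L), ∀ w ∉ T, ∀ y : L, w.valuation L y ≤ 1 →
      (P l).IsRoot (b j) → w.valuation L (y - b j) < 1 → w.valuation L ((P l).eval y) < 1 := by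
    intro j l
    by_cases hr : (P l).IsRoot (b j)
    · obtain ⟨R, hR⟩ := dvd_iff_isRoot.2 hr
      obtain ⟨T, hT⟩ := exists_bad R
      refine ⟨T, fun w hw y hy _ h => ?_⟩
      rw [hR, eval_mul, eval_sub, eval_X, eval_C, map_mul]
      calc w.valuation L (y - b j) * w.valuation L (R.eval y)
          ≤ w.valuation L (y - b j) * 1 := mul_le_mul_right (hT w hw y hy) _
        _ < 1 := by rwa [mul_one]
    · exact ⟨∅, fun w _ y _ h _ => absurd h hr⟩
  choose T hT using h
  refine ⟨Finset.univ.biUnion fun j => Finset.univ.biUnion fun l => T j l, ?_⟩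
  intro w hw y hy j l hr h
  refine hT j l w (fun hcon => hw ?_) y hy hr h
  rw [Finset.mem_biUnion]
  refine ⟨j, Finset.mem_univ _, ?_⟩
  rw [Finset.mem_biUnion]
  exact ⟨l, Finset.mem_univ _, hcon⟩

end Pool.Agent.V5helper62.TS
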