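import Mathlib
import Pool.Agent.V5helper62.TS.Main
set_option autoImplicit false

/-!
The lower bound for the truncated counting function.
-/

namespace Pool.Agent.V5helper62.TS

open NumberField IsDedekindDomain Finset Pool.Agent.H691R3 Pool.Agent.TH876.Loc
open Polynomial Height
open Pool.Agent.N753.LS (fv_le_one fv_lt_one)
open Pool.Agent.N753.SF (mob dt mob_height tuple_main val_lt_over val_le_over)
open Pool.Agent.N753.LS (htm htm_le box_fin)
open Pool.Agent.TH876.KR (form localHeight localHeight_nonneg localHeight_pos_iff m2)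
open Pool.Agent.Y730.QP (cnt log_Nv_le_localHeight term_nonneg)
open Pool.Agent.Y557.NF (cnt_eq_V exists_V ne_of_form)

variable {K k : Type} [Field K] [NumberField K] [Field k] [NumberField k] [Algebra K k]

/-- the transformation `1 / (x - c)` -/
def gc (c : K) : Fin 4 → K := ![0, 1, 1, -c]

/-- its inverse `c + 1 / y` -/
def gi (c : K) : Fin 4 → K := ![c, 1, 1, 0]

theorem dt_gc (c : K) : dt (gc c) ≠ 0 := by
  unfold dt gc
  show (0 : K) * -c - 1 * 1 ≠ 0
  simp

theorem dt_gi (c : K) : dt (gi c) ≠ 0 := by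
  unfold dt gi
  show c * (0 : K) - 1 * 1 ≠ 0
  simp

theorem den_gc (c x : K) : gc c 2 * x + gc c 3 = x - c := by
  unfold gc
  show 1 * x + -c = x - c
  ring

theorem mob_gc (c x : K) : mob (gc c) x = (x - c)⁻¹ := by
  unfold mob
  rw [den_gc]
  unfold gc
  show (0 * x + 1) / (x - c) = _
  rw [zero_mul, zero_add, one_div]

/-- the height of `x` and of `1 / (x - c)` -/
theorem height_gc (c : K) : ∃ C : ℝ, 0 ≤ C ∧ ∀ x : K, x ≠ c →
    logHeight₁ x ≤ logHeight₁ (mob (gc c) x) + C ∧
    logHeight₁ (mob (gc c) x) ≤ logHeight₁ x + C := by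
  obtain ⟨C1, hC1, h1⟩ := mob_height (gc c) (dt_gc c)
  obtain ⟨C2, hC2, h2⟩ := mob_height (gi c) (dt_gi c)
  refine ⟨C1 + C2, by linarith, fun x hx => ?_⟩
  have hx' : x - c ≠ 0 := sub_ne_zero.2 hx
  have h3 := h1 x (by rw [den_gc]; exact hx')
  have hy : mob (gc c) x ≠ 0 := by
    rw [mob_gc]
    exact inv_ne_zero hx'
  have hden : gi c 2 * mob (gc c) x + gi c 3 = mob (gc c) x := by
    unfold gi
    show 1 * mob (gc c) x + 0 = _
    ring
  have h4 := h2 (mob (gc c) x) (by rw [hden]; exact hy)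
  have h5 : mob (gi c) (mob (gc c) x) = x := by
    have e : mob (gi c) (mob (gc c) x) = (c * mob (gc c) x + 1) / mob (gc c) x := by
      conv_lhs => unfold mob
      rw [show gi c 2 * ((gc c 0 * x + gc c 1) / (gc c 2 * x + gc c 3)) + gi c 3 =
        mob (gc c) x from hden]
      rfl
    rw [e, mob_gc]
    field_simp
    ring
  rw [h5] at h4
  constructor <;> linarith

open Classical in
/-- the finite extension in which the preimages are rational -/
theorem exists_ext {q : ℕ} {D : ℕ} {A B : k[X]} (hA : A.natDegree ≤ D) (hB : B.natDegree ≤ D)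
    (a : Fin q → Fin 2 → k) {c : K} (hc : ∀ l, (fib A B (a l)).eval (algebraMap K k c) ≠ 0) :
    ∃ (L : Type) (_ : Field L) (_ : NumberField L) (_ : Algebra k L) (_ : Algebra K L)
      (_ : IsScalarTower K k L) (b : Fin (preimages D A B a).ncard → L),
      Function.Injective b ∧
      ((∀ β : AlgebraicClosure k, (∃ l, aeval β (fib A B (a l)) = 0) →
        (minpoly K β).natDegree ≤ 5) → ∀ j, (minpoly K (b j)).natDegree ≤ 5) ∧
      (∀ j, ∃ l, aeval (b j) (hat D (algebraMap K k c) (fib A B (a l))) = 0) ∧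
      (∀ l, ((hat D (algebraMap K k c) (fib A B (a l))).map (algebraMap k L)).Splits) ∧
      ∀ l z, aeval z (hat D (algebraMap K k c) (fib A B (a l))) = 0 → ∃ j, z = b j := by
  have hfd : ∀ l, (fib A B (a l)).natDegree ≤ D := by
    intro l
    unfold fib
    refine (natDegree_sub_le _ _).trans (max_le ?_ ?_)
    · exact (natDegree_C_mul_le _ _).trans hA
    · exact (natDegree_C_mul_le _ _).trans hB
  set c' : k := algebraMap K k c with hc'
  have hne : ∀ l, hat D c' (fib A B (a l)) ≠ 0 := by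
    intro l h
    apply hc l
    rw [← coeff_hat D, h, coeff_zero]
  obtain ⟨P, hP⟩ : ∃ P : k[X], P = ∏ l, hat D c' (fib A B (a l)) := ⟨_, rfl⟩
  have hP0 : P ≠ 0 := by
    rw [hP]
    exact Finset.prod_ne_zero_iff.2 fun l _ => hne l
  have hLn : NumberField P.SplittingField := NumberField.of_module_finite k P.SplittingField
  have hfin : (P.rootSet P.SplittingField).Finite := P.rootSet_finite _
  let σ : P.SplittingField →ₐ[k] AlgebraicClosure k := IsAlgClosed.lift
  have hsp : (P.map (algebraMap k P.SplittingField)).Splits := SplittingField.splits P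
  have hcard : (preimages D A B a).ncard = (P.rootSet P.SplittingField).ncard := by
    have hinj : Function.Injective σ := σ.toRingHom.injective
    rw [card_preimages hA hB a hc, ← hP, ← hsp.image_rootSet σ,
      Set.ncard_image_of_injective _ hinj]
  obtain ⟨R, hR⟩ : ∃ R : Finset P.SplittingField, R = hfin.toFinset := ⟨_, rfl⟩
  have hRc : R.card = (preimages D A B a).ncard := by
    rw [hcard, hR, Set.ncard_eq_toFinset_card _ hfin]
  obtain ⟨e⟩ : Nonempty (Fin (preimages D A B a).ncard ≃ R) :=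
    ⟨(finCongr hRc.symm).trans R.equivFin.symm⟩
  have hroot : ∀ z : P.SplittingField, z ∈ R ↔ ∃ l, aeval z (hat D c' (fib A B (a l))) = 0 := by
    intro z
    have hz : aeval z P = ∏ l, aeval z (hat D c' (fib A B (a l))) := by
      have h1 : aeval z P = aeval z (∏ l, hat D c' (fib A B (a l))) :=
        congrArg (fun Q : k[X] => aeval z Q) hP
      rw [h1, map_prod]
    rw [hR, Set.Finite.mem_toFinset, mem_rootSet, hz, Finset.prod_eq_zero_iff]
    constructor
    · rintro ⟨-, l, -, hl⟩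
      exact ⟨l, hl⟩
    · rintro ⟨l, hl⟩
      exact ⟨hP0, l, Finset.mem_univ _, hl⟩
  refine ⟨P.SplittingField, inferInstance, hLn, inferInstance, inferInstance, inferInstance,
    fun j => (e j : P.SplittingField), ?_, ?_, ?_, ?_, ?_⟩
  · intro i j hij
    exact e.injective (Subtype.ext hij)
  · intro hdeg j
    obtain ⟨l, hl⟩ := (hroot _).1 (e j).2
    obtain ⟨z, hz⟩ : ∃ z : P.SplittingField, z = e j := ⟨_, rfl⟩
    show (minpoly K (e j : P.SplittingField)).natDegree ≤ 5
    rw [← hz] at hl ⊢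
    by_cases hz0 : z = 0
    · rw [hz0, minpoly.zero, natDegree_X]
      norm_num
    · have hβ : aeval (z⁻¹ + algebraMap k P.SplittingField c') (fib A B (a l)) = 0 := by
        rw [aeval_hat c' (hfd l) hz0] at hl
        exact (mul_eq_zero.1 hl).resolve_left (pow_ne_zero _ hz0)
      have h1 := hdeg (σ (z⁻¹ + algebraMap k P.SplittingField c')) ⟨l, by
        rw [aeval_algHom_apply, hβ, map_zero]⟩
      have h2 : minpoly K (σ (z⁻¹ + algebraMap k P.SplittingField c')) =
          minpoly K (z⁻¹ + algebraMap k P.SplittingField c') :=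
        minpoly.algHom_eq (σ.restrictScalars K) σ.toRingHom.injective _
      rw [h2] at h1
      have h3 : algebraMap k P.SplittingField c' = algebraMap K P.SplittingField c := by
        rw [hc', ← IsScalarTower.algebraMap_apply]
      have h4 := Pool.Agent.N753.SF.deg_le (K := K) (k := P.SplittingField)
        (a0 := z⁻¹ + algebraMap k P.SplittingField c') (a1 := 1) c (by
          rw [h3, mul_one, add_sub_cancel_right]
          exact inv_ne_zero hz0) (n := 5) (by norm_num) (by rwa [div_one])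
      rw [h3, mul_one, add_sub_cancel_right, one_div, inv_inv] at h4
      exact h4
  · intro j
    exact (hroot _).1 (e j).2
  · intro l
    refine hsp.of_dvd ?_ ?_
    · exact Polynomial.map_ne_zero hP0
    · refine Polynomial.map_dvd _ ?_
      rw [hP]
      exact Finset.dvd_prod_of_mem _ (Finset.mem_univ l)
  · intro l z hz
    obtain ⟨j, hj⟩ := e.surjective ⟨z, (hroot z).2 ⟨l, hz⟩⟩
    refine ⟨j, ?_⟩
    show z = (e j : P.SplittingField)
    rw [hj]

variable (K) in
open Classical in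
/-- **The lower bound.** -/
theorem lower {ε : ℝ} (hε : 0 < ε) : ∃ E : Set K,
    (∃ ν C : ℝ, 0 < ν ∧ ∀ H : ℝ, 1 ≤ H → (E ∩ {y | mulHeight₁ y ≤ H}).Finite ∧
      ((E ∩ {y | mulHeight₁ y ≤ H}).ncard : ℝ) ≤ C * H ^ (2 - ν)) ∧
    ∀ (k : Type) [Field k] [NumberField k] [Algebra K k] (S : Set (Pr k)), S.Finite →
      ∀ (q D : ℕ) (A B : k[X]) (a : Fin q → Fin 2 → k), 1 ≤ D → A.natDegree ≤ D →
        B.natDegree ≤ D → (A.natDegree = D ∨ B.natDegree = D) → IsCoprime A B →
        (∀ l, a l ≠ 0) → (∀ i j, i ≠ j → a i 0 * a j 1 - a i 1 * a j 0 ≠ 0) →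
        (∀ β : AlgebraicClosure k, (∃ l, aeval β (fib A B (a l)) = 0) →
          (minpoly K β).natDegree ≤ 5) →
        ∃ C : ℝ, ∀ x : K, x ∉ E → (∀ l, (fib A B (a l)).eval (algebraMap K k x) ≠ 0) →
          (Module.finrank K k : ℝ) * (((preimages D A B a).ncard - ε) * logHeight₁ x) ≤
            cnt S a (val A B (algebraMap K k x)) + C := by
  obtain ⟨E0, ⟨ν, C0, hν, hE0⟩, -, hmain⟩ := tuple_main K (m := 1) one_pos hε
  refine ⟨{y | (fun _ => y) ∈ E0}, ⟨ν, C0, hν, fun H hH => ?_⟩, ?_⟩
  · have hfin0 : (E0 ∩ {x | htm x ≤ Real.log H}).Finite := (box_fin _).inter_of_right E0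
    have hsub : ({y | (fun _ => y) ∈ E0} ∩ {y : K | mulHeight₁ y ≤ H}) ⊆
        (fun x : Fin 1 → K => x 0) '' (E0 ∩ {x | htm x ≤ Real.log H}) := by
      rintro y ⟨hy1, hy2⟩
      refine ⟨fun _ => y, ⟨hy1, ?_⟩, rfl⟩
      refine htm_le one_pos fun _ => ?_
      rw [logHeight₁_eq_log_mulHeight₁]
      exact Real.log_le_log (mulHeight₁_pos _) hy2
    refine ⟨(hfin0.image _).subset hsub, ?_⟩
    have h1 := (Set.ncard_le_ncard hsub (hfin0.image _)).trans (Set.ncard_image_le hfin0)
    have h2 := hE0 (Real.log H) (Real.log_nonneg hH)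
    rw [Nat.cast_one, mul_one, mul_comm (2 - ν), ← Real.rpow_def_of_pos (by linarith)] at h2
    exact le_trans (by exact_mod_cast h1) h2
  intro k _ _ _ S hS q D A B a hD1 hA hB hD hco ha0 ha hdeg
  have hfd : ∀ l, (fib A B (a l)).natDegree ≤ D := by
    intro l
    unfold fib
    refine (natDegree_sub_le _ _).trans (max_le ?_ ?_)
    · exact (natDegree_C_mul_le _ _).trans hA
    · exact (natDegree_C_mul_le _ _).trans hB
  obtain ⟨c, hc⟩ := exists_value (K := K) (fun l => fib A B (a l))
    (fun l => fib_ne_zero hco hD1 hD (ha0 l))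
  have hc : ∀ l, (fib A B (a l)).eval (algebraMap K k c) ≠ 0 := hc
  obtain ⟨L, _, _, _, _, _, b, hbinj, hbdeg', hbroot, -, -⟩ := exists_ext hA hB a hc
  have hbdeg := hbdeg' hdeg
  obtain ⟨n, hn⟩ : ∃ n : ℕ, n = (preimages D A B a).ncard := ⟨_, rfl⟩
  have hd0 : (0 : ℝ) < Module.finrank K k := by
    have hfd : FiniteDimensional K k := Module.Finite.of_restrictScalars_finite ℚ K k
    exact_mod_cast Module.finrank_pos
  have hx0 : ∀ x : K, val A B (algebraMap K k x) ≠ 0 := by
    intro x h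
    obtain ⟨u, v, huv⟩ := hco
    have h1 : A.eval (algebraMap K k x) = 0 := congrFun h 0
    have h2 : B.eval (algebraMap K k x) = 0 := congrFun h 1
    have h3 := congrArg (eval (algebraMap K k x)) huv
    rw [eval_add, eval_mul, eval_mul, h1, h2, mul_zero, mul_zero, add_zero, eval_one] at h3
    exact zero_ne_one h3
  have hform : ∀ x : K, (∀ l, (fib A B (a l)).eval (algebraMap K k x) ≠ 0) →
      ∀ l, form (a l) (val A B (algebraMap K k x)) ≠ 0 := by
    intro x hx l
    rw [form_val]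
    exact neg_ne_zero.2 (hx l)
  rcases Nat.eq_zero_or_pos (preimages D A B a).ncard with hn0 | hn0
  · refine ⟨0, fun x _ hx => ?_⟩
    have h1 := cnt_nonneg S (hform x hx) (hx0 x)
    have h2 : 0 ≤ logHeight₁ x := zero_le_logHeight₁ x
    rw [hn0, Nat.cast_zero, zero_sub, add_zero]
    have h3 : 0 ≤ (Module.finrank K k : ℝ) * (ε * logHeight₁ x) := by positivity
    linarith
  obtain ⟨C2, h2⟩ := hmain L _ b hn0 hbinj hbdeg (gc c) (dt_gc c)
  obtain ⟨C1, hC1, h1⟩ := height_gc c
  have hAB : A.coeff D ≠ 0 ∨ B.coeff D ≠ 0 := by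
    rcases hD with h | h
    · left
      rw [← h]
      intro h0
      have : A = 0 := leadingCoeff_eq_zero.1 h0
      rw [this, natDegree_zero] at h
      omega
    · right
      rw [← h]
      intro h0
      have : B = 0 := leadingCoeff_eq_zero.1 h0
      rw [this, natDegree_zero] at h
      omega
  obtain ⟨T, hT⟩ := local_pos hA hB (algebraMap K k c)
    (hat_coprime (algebraMap K k c) hA hB hco hAB) a ha0
  obtain ⟨TL, hTL⟩ := bad_roots b fun l =>
    (hat D (algebraMap K k c) (fib A B (a l))).map (algebraMap k L)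
  obtain ⟨TS, hTS⟩ : ∃ TS : Finset (Pr k), TS = T ∪ hS.toFinset := ⟨_, rfl⟩
  have hdL : (0 : ℝ) < Module.finrank k L := by
    have hfd : FiniteDimensional k L := Module.Finite.of_restrictScalars_finite ℚ k L
    exact_mod_cast Module.finrank_pos
  have hmul : (Module.finrank K L : ℝ) = Module.finrank K k * Module.finrank k L := by
    exact_mod_cast (Module.finrank_mul_finrank K k L).symm
  obtain ⟨t, ht⟩ : ∃ t : ℝ, t = ∑ w ∈ TS, Real.log (Nv w) := ⟨_, rfl⟩
  obtain ⟨tL, htL⟩ : ∃ tL : ℝ, tL = ∑ w ∈ TL, Real.log (Nv w) := ⟨_, rfl⟩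
  obtain ⟨s, hs⟩ : ∃ s : ℝ, s = |((preimages D A B a).ncard : ℝ) - ε| := ⟨_, rfl⟩
  have hs0 : 0 ≤ s := by rw [hs]; exact abs_nonneg _
  obtain ⟨d, hd⟩ : ∃ d : ℝ, d = Module.finrank K k := ⟨_, rfl⟩
  obtain ⟨dL, hdLe⟩ : ∃ dL : ℝ, dL = Module.finrank k L := ⟨_, rfl⟩
  rw [← hd] at hd0
  rw [← hdLe] at hdL
  refine ⟨d * (s * C1) + t + (tL + |C2|) / dL + |d * ((((preimages D A B a).ncard : ℝ) - ε) *
    logHeight₁ c)|, ?_⟩
  intro x hxE hx
  have hcn := cnt_nonneg S (hform x hx) (hx0 x)
  have ht0 : 0 ≤ t := by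
    rw [ht]
    exact Finset.sum_nonneg fun w _ => logN_nonneg w
  have htL0 : 0 ≤ tL := by
    rw [htL]
    exact Finset.sum_nonneg fun w _ => logN_nonneg w
  have hq0 : 0 ≤ (tL + |C2|) / dL := div_nonneg (add_nonneg htL0 (abs_nonneg _)) hdL.le
  have hdsC : 0 ≤ d * (s * C1) := by positivity
  rw [← hd]
  by_cases hxc : x = c
  · rw [hxc] at hcn ⊢
    have := le_abs_self (d * ((((preimages D A B a).ncard : ℝ) - ε) * logHeight₁ c))
    linarith
  have hxc' : x - c ≠ 0 := sub_ne_zero.2 hxc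
  obtain ⟨y, hy⟩ : ∃ y : K, y = mob (gc c) x := ⟨_, rfl⟩
  have hyx : y = (x - c)⁻¹ := by rw [hy, mob_gc]
  have hy0 : y ≠ 0 := by rw [hyx]; exact inv_ne_zero hxc'
  have hxy : (algebraMap K k y)⁻¹ + algebraMap K k c = algebraMap K k x := by
    rw [← map_inv₀, hyx, inv_inv, ← map_add, sub_add_cancel]
  have hyk0 : algebraMap K k y ≠ 0 := by
    rw [Ne, FaithfulSMul.algebraMap_eq_zero_iff]
    exact hy0
  have hLk : algebraMap K L y = algebraMap k L (algebraMap K k y) :=
    IsScalarTower.algebraMap_apply K k L y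
  have hevL : ∀ l, ((hat D (algebraMap K k c) (fib A B (a l))).map (algebraMap k L)).eval
      (algebraMap K L y) = algebraMap k L ((hat D (algebraMap K k c) (fib A B (a l))).eval
        (algebraMap K k y)) := by
    intro l
    rw [hLk, eval_map_algebraMap, aeval_algebraMap_apply, coe_aeval_eq_eval]
  have hhat : ∀ l, (hat D (algebraMap K k c) (fib A B (a l))).eval (algebraMap K k y) ≠ 0 := by
    intro l h
    have h3 := aeval_hat (algebraMap K k c) (hfd l) (L := k) hyk0
    rw [coe_aeval_eq_eval, coe_aeval_eq_eval, h, Algebra.algebraMap_self_apply, hxy] at h3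
    exact mul_ne_zero (pow_ne_zero _ hyk0) (hx l) h3.symm
  -- the primes
  obtain ⟨W, hW1, hW2⟩ := near_le_cnt S (hform x hx) (hx0 x)
  obtain ⟨W', hW'1, hW'2⟩ := sum_over (L := L) (W ∪ TS)
  have h3 := h2 (fun _ => x) hxE (fun _ => by rw [den_gc]; exact hxc') (fun _ j h => by
    obtain ⟨l, hl⟩ := hbroot j
    rw [← hy] at h
    rw [← h, hLk, aeval_algebraMap_apply, FaithfulSMul.algebraMap_eq_zero_iff,
      coe_aeval_eq_eval] at hl
    exact hhat l hl) (W' ∪ TL) (by
    rintro w - hw1 ⟨j, hw2⟩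
    rw [← hy] at hw1 hw2
    rw [Finset.mem_union]
    by_cases hwT : w ∈ TL
    · exact Or.inr hwT
    left
    obtain ⟨v, hv⟩ := exists_below (k := k) w
    refine hW'1 v ?_ w hv
    rw [Finset.mem_union]
    by_cases hvT : v ∈ TS
    · exact Or.inr hvT
    left
    rw [hTS, Finset.mem_union, not_or, Set.Finite.mem_toFinset] at hvT
    obtain ⟨l, hl⟩ := hbroot j
    refine hW1 v hvT.2 ⟨l, ?_⟩
    rw [← hxy]
    refine hT v hvT.1 (algebraMap K k y) hyk0 ?_ l (by rw [hxy]; exact hx l) ?_
    · rw [← val_le_over v w, ← hLk]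
      exact hw1
    · rw [← val_lt_over v w, ← hevL]
      refine hTL w hwT (algebraMap K L y) hw1 j l ?_ hw2
      rw [IsRoot.def, eval_map_algebraMap]
      exact hl)
  rw [Fin.sum_univ_one, ← hy, hmul, ← hd, ← hdLe] at h3
  have h4 : ∑ w ∈ W' ∪ TL, Real.log (Nv w) ≤ dL * (cnt S a (val A B (algebraMap K k x)) + t) + tL := by
    refine (sum_union_le _ _).trans ?_
    rw [← htL]
    refine add_le_add ?_ le_rfl
    rw [← hdLe] at hW'2
    refine hW'2.trans (mul_le_mul_of_nonneg_left ?_ hdL.le)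
    refine (sum_union_le _ _).trans ?_
    rw [← ht]
    exact add_le_add hW2 le_rfl
  have h5 : d * ((((preimages D A B a).ncard : ℝ) - ε) * logHeight₁ y) ≤
      cnt S a (val A B (algebraMap K k x)) + t + (tL + |C2|) / dL := by
    have h6 : dL * (d * ((((preimages D A B a).ncard : ℝ) - ε) * logHeight₁ y)) ≤
        dL * (cnt S a (val A B (algebraMap K k x)) + t + (tL + |C2|) / dL) := by
      have e : dL * (cnt S a (val A B (algebraMap K k x)) + t + (tL + |C2|) / dL) =
          dL * (cnt S a (val A B (algebraMap K k x)) + t) + (tL + |C2|) := by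
        field_simp
      rw [e]
      have := le_abs_self C2
      nlinarith
    exact le_of_mul_le_mul_left h6 hdL
  have h6 := h1 x hxc
  rw [← hy] at h6
  have h7 : (((preimages D A B a).ncard : ℝ) - ε) * logHeight₁ x ≤
      (((preimages D A B a).ncard : ℝ) - ε) * logHeight₁ y + s * C1 := by
    have h8 : (((preimages D A B a).ncard : ℝ) - ε) * (logHeight₁ x - logHeight₁ y) ≤ s * C1 := by
      refine (le_abs_self _).trans ?_
      rw [abs_mul, ← hs]
      refine mul_le_mul_of_nonneg_left ?_ hs0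
      rw [abs_le]
      constructor <;> linarith [h6.1, h6.2]
    linarith
  have h8 := mul_le_mul_of_nonneg_left h7 hd0.le
  have h9 := abs_nonneg (d * ((((preimages D A B a).ncard : ℝ) - ε) * logHeight₁ c))
  linarith

end Pool.Agent.V5helper62.TS
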