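import Mathlib
import Pool.Agent.V5helper62.TS.Low
set_option autoImplicit false

/-!
The upper bound for the truncated counting function.
-/

namespace Pool.Agent.V5helper62.TS

open NumberField IsDedekindDomain Finset Pool.Agent.H691R3 Pool.Agent.TH876.Loc
open Polynomial Height
open Pool.Agent.N753.LS (fv_le_one fv_lt_one)
open Pool.Agent.N753.SF (mob dt mob_height tuple_main val_lt_over val_le_over)
open Pool.Agent.N753.LS (htm htm_le box_fin)
open Pool.Agent.TH876.KR (form localHeight localHeight_nonneg localHeight_pos_iff m2 form_le)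
open Pool.Agent.Y730.QP (cnt log_Nv_le_localHeight term_nonneg)
open Pool.Agent.Y557.NF (cnt_eq_V exists_V ne_of_form cnt_le_logHeight)

variable {K k : Type} [Field K] [NumberField K] [Field k] [NumberField k] [Algebra K k]

/-- outside finitely many primes two different points do not meet -/
theorem one_near {q : ℕ} (a : Fin q → Fin 2 → k)
    (ha : ∀ i j, i ≠ j → a i 0 * a j 1 - a i 1 * a j 0 ≠ 0) (ha0 : ∀ l, a l ≠ 0) :
    ∃ T : Finset (Pr k), ∀ w ∉ T, (∀ l, m2 w (a l) = 1) ∧ ∀ x : Fin 2 → k,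
      (∀ l, form (a l) x ≠ 0) → ∀ i j, 0 < localHeight w (a i) x → 0 < localHeight w (a j) x →
        i = j := by
  classical
  have hj : ∀ l, ∃ j, a l j ≠ 0 := by
    intro l
    by_contra hcon
    push Not at hcon
    exact ha0 l (funext hcon)
  choose jj hjj using hj
  obtain ⟨T1, hT1⟩ : ∃ T1 : Finset (Pr k), T1 = Finset.univ.biUnion fun l =>
    Finset.univ.biUnion fun i => if h : a l i = 0 then ∅ else (fv_support_finite h).toFinset :=
    ⟨_, rfl⟩
  obtain ⟨T2, hT2⟩ : ∃ T2 : Finset (Pr k), T2 = Finset.univ.biUnion fun i =>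
    Finset.univ.biUnion fun j => if h : i = j then ∅ else
      (fv_support_finite (ha i j h)).toFinset := ⟨_, rfl⟩
  refine ⟨T1 ∪ T2, fun w hw => ?_⟩
  rw [Finset.mem_union, not_or] at hw
  obtain ⟨hw1, hw2⟩ := hw
  have h1 : ∀ l i, a l i ≠ 0 → fv w (a l i) = 1 := by
    intro l i h
    by_contra hcon
    apply hw1
    rw [hT1, Finset.mem_biUnion]
    refine ⟨l, Finset.mem_univ _, ?_⟩
    rw [Finset.mem_biUnion]
    refine ⟨i, Finset.mem_univ _, ?_⟩
    rw [dif_neg h, Set.Finite.mem_toFinset]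
    exact hcon
  have h1' : ∀ l i, fv w (a l i) ≤ 1 := by
    intro l i
    by_cases h : a l i = 0
    · rw [h, map_zero]
      exact zero_le_one
    · exact (h1 l i h).le
  have h2 : ∀ i j, i ≠ j → fv w (a i 0 * a j 1 - a i 1 * a j 0) = 1 := by
    intro i j hij
    by_contra hcon
    apply hw2
    rw [hT2, Finset.mem_biUnion]
    refine ⟨i, Finset.mem_univ _, ?_⟩
    rw [Finset.mem_biUnion]
    refine ⟨j, Finset.mem_univ _, ?_⟩
    rw [dif_neg hij, Set.Finite.mem_toFinset]
    exact hcon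
  have hm : ∀ l, m2 w (a l) = 1 := by
    intro l
    refine le_antisymm (max_le (h1' l 0) (h1' l 1)) ?_
    rw [← h1 l (jj l) (hjj l)]
    unfold m2
    generalize jj l = i
    fin_cases i
    · exact le_max_left _ _
    · exact le_max_right _ _
  refine ⟨hm, fun x hx i j hi hj => ?_⟩
  by_contra hij
  rw [localHeight_pos_iff w (hx i), hm, one_mul] at hi
  rw [localHeight_pos_iff w (hx j), hm, one_mul] at hj
  have h3 : ∀ s, fv w (x s) < m2 w x := by
    intro s
    have e : x s * (a i 0 * a j 1 - a i 1 * a j 0) =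
        a j s * form (a i) x + -(a i s * form (a j) x) := by
      unfold form
      fin_cases s
      · show x 0 * _ = a j 0 * _ + -(a i 0 * _)
        ring
      · show x 1 * _ = a j 1 * _ + -(a i 1 * _)
        ring
    have h4 : fv w (x s) = fv w (a j s * form (a i) x + -(a i s * form (a j) x)) := by
      rw [← e, map_mul, h2 i j hij, mul_one]
    rw [h4]
    refine (fv_na w _ _).trans_lt (max_lt ?_ ?_)
    · rw [map_mul]
      exact lt_of_le_of_lt (mul_le_of_le_one_left ((fv w).nonneg _) (h1' j s)) hi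
    · rw [(fv w).map_neg, map_mul]
      exact lt_of_le_of_lt (mul_le_of_le_one_left ((fv w).nonneg _) (h1' i s)) hj
  exact lt_irrefl _ (max_lt (h3 0) (h3 1))

/-- a nearby value comes from a nearby parameter -/
theorem near_param {D : ℕ} {A B : k[X]} (hA : A.natDegree ≤ D) (hB : B.natDegree ≤ D) (c : k)
    {q : ℕ} (a : Fin q → Fin 2 → k) (ha : ∀ i j, i ≠ j → a i 0 * a j 1 - a i 1 * a j 0 ≠ 0)
    (ha0 : ∀ l, a l ≠ 0) (hc : ∀ l, (fib A B (a l)).eval c ≠ 0) :
    ∃ T : Finset (Pr k), ∀ w ∉ T, ∀ y : k, y ≠ 0 → ∀ l,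
      (fib A B (a l)).eval (y⁻¹ + c) ≠ 0 → 0 < localHeight w (a l) (val A B (y⁻¹ + c)) →
      w.valuation k y ≤ 1 ∧ w.valuation k ((hat D c (fib A B (a l))).eval y) < 1 := by
  classical
  obtain ⟨T0, hT0⟩ := one_near a ha ha0
  obtain ⟨T1, hT1⟩ := exists_bad (hat D c A)
  obtain ⟨T2, hT2⟩ := exists_bad (hat D c B)
  obtain ⟨T3, hT3⟩ := exists_bad A
  obtain ⟨T4, hT4⟩ := exists_bad B
  have hR : ∀ l, ∃ R : k[X], fib A B (a l) = C ((fib A B (a l)).eval c) + (X - C c) * R := by
    intro l
    obtain ⟨R, hR⟩ := X_sub_C_dvd_sub_C_eval (p := fib A B (a l)) (a := c)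
    exact ⟨R, by rw [← hR]; ring⟩
  choose R hR using hR
  have hbR : ∀ l, ∃ T : Finset (Pr k), ∀ w ∉ T, ∀ y : k, w.valuation k y ≤ 1 →
      w.valuation k ((R l).eval y) ≤ 1 := fun l => exists_bad (R l)
  choose T5 hT5 using hbR
  refine ⟨T0 ∪ (T1 ∪ (T2 ∪ (T3 ∪ (T4 ∪ (Finset.univ.biUnion T5 ∪
    (Finset.univ.biUnion fun l => (fv_support_finite (hc l)).toFinset) ∪
    if h : c = 0 then ∅ else (fv_support_finite h).toFinset))))), ?_⟩
  intro w hw y hy l hl hnear
  simp only [Finset.mem_union, not_or] at hw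
  obtain ⟨hw0, hw1, hw2, hw3, hw4, ⟨hw5, hw6⟩, hw7⟩ := hw
  have hform : form (a l) (val A B (y⁻¹ + c)) ≠ 0 := by
    rw [form_val]
    exact neg_ne_zero.2 hl
  rw [localHeight_pos_iff w hform, (hT0 w hw0).1 l, one_mul, form_val] at hnear
  have h7 : fv w (-(fib A B (a l)).eval (y⁻¹ + c)) = fv w ((fib A B (a l)).eval (y⁻¹ + c)) :=
    (fv w).map_neg _
  rw [h7] at hnear
  have hc1 : fv w c ≤ 1 := by
    by_cases h : c = 0
    · rw [h, map_zero]
      exact zero_le_one
    · rw [dif_neg h, Set.Finite.mem_toFinset] at hw7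
      by_contra hcon
      exact hw7 (fun h1 => hcon h1.le)
  have hGc : fv w ((fib A B (a l)).eval c) = 1 := by
    by_contra hcon
    apply hw6
    rw [Finset.mem_biUnion]
    refine ⟨l, Finset.mem_univ _, ?_⟩
    rw [Set.Finite.mem_toFinset]
    exact hcon
  have hw5' : w ∉ T5 l := fun h => hw5 (Finset.mem_biUnion.2 ⟨l, Finset.mem_univ _, h⟩)
  have hy' : 0 < fv w y := (fv w).pos hy
  have hyle : fv w y ≤ 1 := by
    by_contra hcon
    rw [not_le] at hcon
    have hyi : fv w y⁻¹ < 1 := by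
      rw [map_inv₀]
      exact inv_lt_one_of_one_lt₀ hcon
    have hx1 : fv w (y⁻¹ + c) ≤ 1 := (fv_na w _ _).trans (max_le hyi.le hc1)
    have hx1' := (fv_le_one w _).1 hx1
    have h8 : fv w ((R l).eval (y⁻¹ + c)) ≤ 1 := (fv_le_one w _).2 (hT5 l w hw5' _ hx1')
    have h9 : (fib A B (a l)).eval (y⁻¹ + c) =
        (fib A B (a l)).eval c + y⁻¹ * (R l).eval (y⁻¹ + c) := by
      conv_lhs => rw [hR l]
      rw [eval_add, eval_C, eval_mul, eval_sub, eval_X, eval_C, add_sub_cancel_right]
    have h10 : (1 : ℝ) ≤ fv w ((fib A B (a l)).eval (y⁻¹ + c)) := by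
      by_contra hcon2
      rw [not_le] at hcon2
      have h11 : (fib A B (a l)).eval c = (fib A B (a l)).eval (y⁻¹ + c) +
          -(y⁻¹ * (R l).eval (y⁻¹ + c)) := by
        rw [h9]
        ring
      have h12 : fv w ((fib A B (a l)).eval c) < 1 := by
        rw [h11]
        refine (fv_na w _ _).trans_lt (max_lt hcon2 ?_)
        rw [(fv w).map_neg, map_mul]
        exact lt_of_le_of_lt (mul_le_of_le_one_right ((fv w).nonneg _) h8) hyi
      linarith
    have h13 : m2 w (val A B (y⁻¹ + c)) ≤ 1 :=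
      max_le ((fv_le_one w _).2 (hT3 w hw3 _ hx1')) ((fv_le_one w _).2 (hT4 w hw4 _ hx1'))
    linarith
  have hyle' := (fv_le_one w _).1 hyle
  refine ⟨hyle', ?_⟩
  have hev : ∀ {P : k[X]}, P.natDegree ≤ D → (hat D c P).eval y = y ^ D * P.eval (y⁻¹ + c) := by
    intro P hP
    have := aeval_hat c hP (L := k) hy
    rwa [coe_aeval_eq_eval, coe_aeval_eq_eval] at this
  have hfd : (fib A B (a l)).natDegree ≤ D := by
    unfold fib
    refine (natDegree_sub_le _ _).trans (max_le ?_ ?_)
    · exact (natDegree_C_mul_le _ _).trans hA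
    · exact (natDegree_C_mul_le _ _).trans hB
  have hyD' : 0 < fv w (y ^ D) := (fv w).pos (pow_ne_zero _ hy)
  rw [← fv_lt_one, hev hfd, map_mul]
  calc fv w (y ^ D) * fv w ((fib A B (a l)).eval (y⁻¹ + c))
      < fv w (y ^ D) * m2 w (val A B (y⁻¹ + c)) := mul_lt_mul_of_pos_left hnear hyD'
    _ = max (fv w ((hat D c A).eval y)) (fv w ((hat D c B).eval y)) := by
        rw [hev hA, hev hB, map_mul, map_mul, ← mul_max_of_nonneg _ _ hyD'.le]
        rfl
    _ ≤ 1 := max_le ((fv_le_one w _).2 (hT1 w hw1 _ hyle')) ((fv_le_one w _).2 (hT2 w hw2 _ hyle'))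

/-- a small value of a split polynomial comes from a nearby root -/
theorem near_root {L : Type} [Field L] [NumberField L] {P : L[X]} (hP : P ≠ 0) (hs : P.Splits) :
    ∃ T : Finset (Pr L), ∀ w ∉ T, ∀ y : L, w.valuation L (P.eval y) < 1 →
      ∃ r, P.IsRoot r ∧ w.valuation L (y - r) < 1 := by
  classical
  refine ⟨(fv_support_finite (leadingCoeff_ne_zero.2 hP)).toFinset, fun w hw y hy => ?_⟩
  by_contra hcon
  push Not at hcon
  have h1 : fv w P.leadingCoeff = 1 := by
    by_contra h
    exact hw (by rw [Set.Finite.mem_toFinset]; exact h)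
  have h2 : ∀ s : Multiset L, (∀ r ∈ s, 1 ≤ w.valuation L (y - r)) →
      1 ≤ w.valuation L ((s.map fun r => y - r).prod) := by
    intro s
    induction s using Multiset.induction_on with
    | empty => intro _; simp
    | cons r s ih =>
      intro h
      rw [Multiset.map_cons, Multiset.prod_cons, map_mul]
      exact one_le_mul (h r (Multiset.mem_cons_self r s))
        (ih fun r' hr' => h r' (Multiset.mem_cons_of_mem hr'))
  have h3 := h2 P.roots fun r hr => hcon r (isRoot_of_mem_roots hr)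
  have h4 : P.eval y = P.leadingCoeff * (P.roots.map fun r => y - r).prod := by
    conv_lhs => rw [hs.eq_prod_roots]
    rw [eval_mul, eval_C, eval_multiset_prod, Multiset.map_map]
    simp
  rw [← fv_lt_one, h4, map_mul, h1, one_mul, fv_lt_one] at hy
  exact absurd h3 (not_le.2 hy)

/-- **The upper bound.** -/
theorem upper (S : Set (Pr k)) (q D : ℕ) (A B : k[X]) (a : Fin q → Fin 2 → k) (hD1 : 1 ≤ D)
    (hA : A.natDegree ≤ D) (hB : B.natDegree ≤ D) (hD : A.natDegree = D ∨ B.natDegree = D)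
    (hco : IsCoprime A B) (ha0 : ∀ l, a l ≠ 0)
    (ha : ∀ i j, i ≠ j → a i 0 * a j 1 - a i 1 * a j 0 ≠ 0) :
    ∃ C : ℝ, ∀ x : K, (∀ l, (fib A B (a l)).eval (algebraMap K k x) ≠ 0) →
      cnt S a (val A B (algebraMap K k x)) ≤
        (Module.finrank K k : ℝ) * ((preimages D A B a).ncard * logHeight₁ x) + C := by
  classical
  obtain ⟨c, hc⟩ := exists_value (K := K) (fun l => fib A B (a l))
    (fun l => fib_ne_zero hco hD1 hD (ha0 l))
  have hc : ∀ l, (fib A B (a l)).eval (algebraMap K k c) ≠ 0 := hc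
  obtain ⟨L, _, _, _, _, _, b, hbinj, -, hbroot, hsp, hall⟩ := exists_ext hA hB a hc
  obtain ⟨C1, hC1, h1⟩ := height_gc c
  obtain ⟨T, hT⟩ := near_param hA hB (algebraMap K k c) a ha ha0 hc
  obtain ⟨T', hT'⟩ := one_near a ha ha0
  have hne : ∀ l, (hat D (algebraMap K k c) (fib A B (a l))).map (algebraMap k L) ≠ 0 := by
    intro l
    refine Polynomial.map_ne_zero ?_
    intro h
    apply hc l
    rw [← coeff_hat D, h, coeff_zero]
  have hnr := fun l => near_root (hne l) (hsp l)
  choose TL hTL using hnr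
  obtain ⟨C3, h3⟩ := cnt_le_logHeight (K := L) ∅ fun j => ![b j, 1]
  have hx0 : ∀ x : K, val A B (algebraMap K k x) ≠ 0 := by
    intro x h
    obtain ⟨u, v, huv⟩ := hco
    have h1 : A.eval (algebraMap K k x) = 0 := congrFun h 0
    have h2 : B.eval (algebraMap K k x) = 0 := congrFun h 1
    have h3 := congrArg (eval (algebraMap K k x)) huv
    rw [eval_add, eval_mul, eval_mul, h1, h2, mul_zero, mul_zero, add_zero, eval_one] at h3
    exact zero_ne_one h3
  have hform : ∀ x : K, (∀ l, (fib A B (a l)).eval (algebraMap K k x) ≠ 0) →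
      ∀ l, form (a l) (val A B (algebraMap K k x)) ≠ 0 := by
    intro x hx l
    rw [form_val]
    exact neg_ne_zero.2 (hx l)
  obtain ⟨n, hn⟩ : ∃ n : ℕ, n = (preimages D A B a).ncard := ⟨_, rfl⟩
  obtain ⟨d, hd⟩ : ∃ d : ℝ, d = Module.finrank K k := ⟨_, rfl⟩
  obtain ⟨dL, hdLe⟩ : ∃ dL : ℝ, dL = Module.finrank k L := ⟨_, rfl⟩
  have hd0 : 0 ≤ d := by rw [hd]; exact Nat.cast_nonneg _
  have hdL : 0 < dL := by
    have hfd : FiniteDimensional k L := Module.Finite.of_restrictScalars_finite ℚ k L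
    rw [hdLe]
    exact_mod_cast Module.finrank_pos
  have hmul : (Module.finrank K L : ℝ) = d * dL := by
    rw [hd, hdLe]
    exact_mod_cast (Module.finrank_mul_finrank K k L).symm
  obtain ⟨t, ht⟩ : ∃ t : ℝ, t = ∑ w ∈ T ∪ T', Real.log (Nv w) := ⟨_, rfl⟩
  obtain ⟨TLs, hTLs⟩ : ∃ TLs : Finset (Pr L), TLs = Finset.univ.biUnion TL := ⟨_, rfl⟩
  obtain ⟨tL, htL⟩ : ∃ tL : ℝ, tL = ∑ w ∈ TLs, Real.log (Nv w) := ⟨_, rfl⟩
  obtain ⟨l1, hl1⟩ : ∃ l1 : ℝ, l1 = Real.log |(discr L : ℝ)| := ⟨_, rfl⟩
  obtain ⟨l2, hl2⟩ : ∃ l2 : ℝ, l2 = Real.log |(discr k : ℝ)| := ⟨_, rfl⟩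
  have ht0 : 0 ≤ t := by
    rw [ht]
    exact Finset.sum_nonneg fun w _ => logN_nonneg w
  have htL0 : 0 ≤ tL := by
    rw [htL]
    exact Finset.sum_nonneg fun w _ => logN_nonneg w
  refine ⟨|cnt S a (val A B (algebraMap K k c))| + q * t + (|l1| + tL + |C3|) / dL + |l2| +
    d * (n * C1), ?_⟩
  intro x hx
  rw [← hn, ← hd]
  have hh : 0 ≤ logHeight₁ x := zero_le_logHeight₁ x
  have hp1 : 0 ≤ |cnt S a (val A B (algebraMap K k c))| := abs_nonneg _
  have hp2 : 0 ≤ q * t := by positivity
  have hp3 : 0 ≤ (|l1| + tL + |C3|) / dL := by positivity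
  have hp4 : 0 ≤ d * (n * C1) := by positivity
  have hp5 : 0 ≤ d * (n * logHeight₁ x) := by positivity
  have hp6 : 0 ≤ |l2| := abs_nonneg _
  by_cases hxc : x = c
  · rw [hxc] at hp5 ⊢
    have := le_abs_self (cnt S a (val A B (algebraMap K k c)))
    linarith
  have hxc' : x - c ≠ 0 := sub_ne_zero.2 hxc
  obtain ⟨y, hy⟩ : ∃ y : K, y = mob (gc c) x := ⟨_, rfl⟩
  have hyx : y = (x - c)⁻¹ := by rw [hy, mob_gc]
  have hy0 : y ≠ 0 := by rw [hyx]; exact inv_ne_zero hxc'
  have hxy : (algebraMap K k y)⁻¹ + algebraMap K k c = algebraMap K k x := by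
    rw [← map_inv₀, hyx, inv_inv, ← map_add, sub_add_cancel]
  have hyk0 : algebraMap K k y ≠ 0 := by
    rw [Ne, FaithfulSMul.algebraMap_eq_zero_iff]
    exact hy0
  have hLk : algebraMap K L y = algebraMap k L (algebraMap K k y) :=
    IsScalarTower.algebraMap_apply K k L y
  have hevL : ∀ l, ((hat D (algebraMap K k c) (fib A B (a l))).map (algebraMap k L)).eval
      (algebraMap K L y) = algebraMap k L ((hat D (algebraMap K k c) (fib A B (a l))).eval
        (algebraMap K k y)) := by
    intro l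
    rw [hLk, eval_map_algebraMap, aeval_algebraMap_apply, coe_aeval_eq_eval]
  have hfd : ∀ l, (fib A B (a l)).natDegree ≤ D := by
    intro l
    unfold fib
    refine (natDegree_sub_le _ _).trans (max_le ?_ ?_)
    · exact (natDegree_C_mul_le _ _).trans hA
    · exact (natDegree_C_mul_le _ _).trans hB
  have hhat : ∀ l, (hat D (algebraMap K k c) (fib A B (a l))).eval (algebraMap K k y) ≠ 0 := by
    intro l h
    have h3 := aeval_hat (algebraMap K k c) (hfd l) (L := k) hyk0
    rw [coe_aeval_eq_eval, coe_aeval_eq_eval, h, Algebra.algebraMap_self_apply, hxy] at h3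
    exact mul_ne_zero (pow_ne_zero _ hyk0) (hx l) h3.symm
  have hybj : ∀ j, algebraMap K L y ≠ b j := by
    intro j h
    obtain ⟨l, hl⟩ := hbroot j
    rw [← h, hLk, aeval_algebraMap_apply, FaithfulSMul.algebraMap_eq_zero_iff,
      coe_aeval_eq_eval] at hl
    exact hhat l hl
  have hformL : ∀ j, form ![b j, 1] ![algebraMap K L y, 1] ≠ 0 := by
    intro j
    unfold form
    show b j * 1 - 1 * algebraMap K L y ≠ 0
    rw [mul_one, one_mul, sub_ne_zero]
    exact (hybj j).symm
  have hy1 : (![algebraMap K L y, 1] : Fin 2 → L) ≠ 0 := by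
    intro h
    have := congrFun h 1
    exact one_ne_zero (α := L) this
  -- the primes at which the value is near
  obtain ⟨V, hV⟩ := exists_V (hform x hx) (hx0 x)
  obtain ⟨V0, hV0⟩ : ∃ V0 : Finset (Pr k), V0 = V.filter fun w => w ∉ T ∪ T' ∧
    ∃ l, 0 < localHeight w (a l) (val A B (algebraMap K k x)) := ⟨_, rfl⟩
  have hcnt : cnt S a (val A B (algebraMap K k x)) ≤ ∑ w ∈ V0, Real.log (Nv w) + q * t := by
    rw [cnt_eq_V S V hV]
    have h5 : ∀ w ∈ V, (if w ∉ S then ∑ i : Fin q, min (localHeight w (a i)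
        (val A B (algebraMap K k x))) (Real.log (Nv w)) else 0) ≤
        (if w ∉ T ∪ T' ∧ ∃ l, 0 < localHeight w (a l) (val A B (algebraMap K k x)) then
          Real.log (Nv w) else 0) + if w ∈ T ∪ T' then q * Real.log (Nv w) else 0 := by
      intro w _
      have hN := logN_nonneg w
      have hterm : ∀ i, 0 ≤ min (localHeight w (a i) (val A B (algebraMap K k x)))
          (Real.log (Nv w)) := fun i => term_nonneg w (hform x hx i)
      have hX : (if w ∉ S then ∑ i : Fin q, min (localHeight w (a i)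
          (val A B (algebraMap K k x))) (Real.log (Nv w)) else 0) ≤
          ∑ i : Fin q, min (localHeight w (a i) (val A B (algebraMap K k x))) (Real.log (Nv w)) := by
        by_cases hwS : w ∉ S
        · rw [if_pos hwS]
        · rw [if_neg hwS]
          exact Finset.sum_nonneg fun i _ => hterm i
      refine hX.trans ?_
      by_cases hwT : w ∈ T ∪ T'
      · rw [if_pos hwT, if_neg (fun h => h.1 hwT), zero_add]
        refine (Finset.sum_le_sum (g := fun _ => Real.log (Nv w))
          fun i _ => min_le_right _ _).trans (le_of_eq ?_)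
        rw [Finset.sum_const, Finset.card_univ, Fintype.card_fin, nsmul_eq_mul]
      · rw [if_neg hwT, add_zero]
        rw [Finset.mem_union, not_or] at hwT
        by_cases hnear : ∃ l, 0 < localHeight w (a l) (val A B (algebraMap K k x))
        · rw [if_pos ⟨by rw [Finset.mem_union, not_or]; exact hwT, hnear⟩]
          obtain ⟨l, hl⟩ := hnear
          rw [Finset.sum_eq_single l]
          · exact min_le_right _ _
          · intro i _ hil
            have h7 : localHeight w (a i) (val A B (algebraMap K k x)) = 0 := by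
              by_contra hcon
              have h8 : 0 < localHeight w (a i) (val A B (algebraMap K k x)) :=
                lt_of_le_of_ne (localHeight_nonneg w (hform x hx i)) (Ne.symm hcon)
              exact hil ((hT' w hwT.2).2 _ (hform x hx) i l h8 hl)
            rw [h7]
            exact min_eq_left hN
          · intro h
            exact absurd (Finset.mem_univ l) h
        · rw [if_neg (fun h => hnear h.2)]
          refine Finset.sum_nonpos fun i _ => ?_
          have h7 : ¬ 0 < localHeight w (a i) (val A B (algebraMap K k x)) :=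
            fun h => hnear ⟨i, h⟩
          exact (min_le_left _ _).trans (not_lt.1 h7)
    refine (Finset.sum_le_sum h5).trans ?_
    rw [Finset.sum_add_distrib, hV0, Finset.sum_filter]
    refine add_le_add le_rfl ?_
    rw [ht, Finset.mul_sum, ← Finset.sum_filter]
    refine Finset.sum_le_sum_of_subset_of_nonneg ?_ ?_
    · intro w hw
      exact (Finset.mem_filter.1 hw).2
    · intro w _ _
      have := logN_nonneg w
      positivity
  -- the primes above them
  obtain ⟨W, hW1, hW2⟩ := near_le_cnt (k := L) ∅ hformL hy1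
  have h4 := h3 ![algebraMap K L y, 1] hy1 hformL
  have hbase := Pool.Agent.Y729.RV.base_change (k := k) (L := L) V0 (W ∪ TLs) (by
    intro v hv w hw
    rw [Finset.mem_union]
    by_cases hwT : w ∈ TLs
    · exact Or.inr hwT
    left
    rw [hV0, Finset.mem_filter, Finset.mem_union, not_or] at hv
    obtain ⟨-, ⟨hvT, -⟩, l, hl⟩ := hv
    rw [← hxy] at hl
    obtain ⟨h5, h6⟩ := hT v hvT (algebraMap K k y) hyk0 l (by rw [hxy]; exact hx l) hl
    rw [← val_le_over v w, ← hLk] at h5
    rw [← val_lt_over v w, ← hevL] at h6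
    obtain ⟨r, hr1, hr2⟩ := hTL l w (fun h => hwT (by
      rw [hTLs]
      exact Finset.mem_biUnion.2 ⟨l, Finset.mem_univ _, h⟩)) _ h6
    obtain ⟨j, rfl⟩ := hall l r (by
      rw [IsRoot.def, eval_map_algebraMap] at hr1
      exact hr1)
    refine hW1 w (Set.notMem_empty _) ⟨j, ?_⟩
    rw [localHeight_pos_iff w (hformL j)]
    have h7 : fv w (form ![b j, 1] ![algebraMap K L y, 1]) < 1 := by
      rw [fv_lt_one]
      have e : form ![b j, 1] ![algebraMap K L y, 1] = -(algebraMap K L y - b j) := by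
        unfold form
        show b j * 1 - 1 * algebraMap K L y = _
        ring
      rw [e, Valuation.map_neg]
      exact hr2
    have h8 : ∀ z : L, 1 ≤ m2 w ![z, 1] := by
      intro z
      unfold m2
      have : fv w ((![z, 1] : Fin 2 → L) 1) = 1 := map_one (fv w)
      rw [this]
      exact le_max_right _ _
    have h9 := h8 (b j)
    have h10 := h8 (algebraMap K L y)
    nlinarith)
  have hht : Height.logHeight ![algebraMap K L y, 1] = d * dL * logHeight₁ y := by
    rw [← logHeight₁_eq_logHeight, Pool.Agent.Y557.OE.ht_ext, hmul]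
  rw [hht] at h4
  have h5 : dL * (l2 + ∑ w ∈ V0, Real.log (Nv w)) ≤
      l1 + (n * (d * dL * logHeight₁ y) + |C3| + tL) := by
    have h6 : ∑ w ∈ W ∪ TLs, Real.log (Ideal.absNorm w.asIdeal : ℝ) ≤
        n * (d * dL * logHeight₁ y) + |C3| + tL := by
      refine (sum_union_le W TLs).trans ?_
      rw [← htL]
      refine add_le_add (hW2.trans (h4.trans ?_)) le_rfl
      rw [← hn]
      exact add_le_add le_rfl (le_abs_self C3)
    have hbase' : dL * (l2 + ∑ w ∈ V0, Real.log (Nv w)) ≤
        l1 + ∑ w ∈ W ∪ TLs, Real.log (Ideal.absNorm w.asIdeal : ℝ) := by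
      rw [hl1, hl2, hdLe]
      exact hbase
    exact hbase'.trans (add_le_add le_rfl h6)
  have h6 : ∑ w ∈ V0, Real.log (Nv w) ≤ d * (n * logHeight₁ y) + (|l1| + tL + |C3|) / dL + |l2| := by
    have h7 : dL * (∑ w ∈ V0, Real.log (Nv w)) ≤
        dL * (d * (n * logHeight₁ y) + (|l1| + tL + |C3|) / dL + |l2|) := by
      have e : dL * (d * (n * logHeight₁ y) + (|l1| + tL + |C3|) / dL + |l2|) =
          dL * (d * (n * logHeight₁ y)) + (|l1| + tL + |C3|) + dL * |l2| := by
        field_simp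
      rw [e]
      have h8 := le_abs_self l1
      have h9 : -(dL * |l2|) ≤ dL * l2 := by
        rw [← mul_neg]
        exact mul_le_mul_of_nonneg_left (neg_abs_le l2) hdL.le
      nlinarith
    exact le_of_mul_le_mul_left h7 hdL
  have h7 := (h1 x hxc).2
  rw [← hy] at h7
  have h8 : d * (n * logHeight₁ y) ≤ d * (n * logHeight₁ x) + d * (n * C1) := by
    have h9 : (n : ℝ) * logHeight₁ y ≤ n * (logHeight₁ x + C1) :=
      mul_le_mul_of_nonneg_left h7 (Nat.cast_nonneg _)
    have h10 := mul_le_mul_of_nonneg_left h9 hd0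
    linarith
  linarith

end Pool.Agent.V5helper62.TS
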